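import Pool.Agent.P.MP_7e3bdd_an.Free

/-!
An action of the free group on `ℤ × FG` whose point stabiliser is co-amenable and is normalised
by a free group acting freely on the orbit.
-/

set_option autoImplicit false

noncomputable section

namespace Pool.Agent.P.MP_7e3bdd_an

open FreeGroup (startsWith startsWith_mk_mul)

/-- The shift of the height. -/
def shift : Equiv.Perm (ℤ × FG) := Equiv.prodCongr (Equiv.addRight (-1)) (Equiv.refl FG)

/-- Right multiplication by `c⁻¹` at height zero. -/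
def mv (c : FG) : Equiv.Perm (ℤ × FG) where
  toFun x := (x.1, if x.1 = 0 then x.2 * c⁻¹ else x.2)
  invFun x := (x.1, if x.1 = 0 then x.2 * c else x.2)
  left_inv x := by by_cases h : x.1 = 0 <;> simp [h]; exact Prod.ext h.symm rfl
  right_inv x := by by_cases h : x.1 = 0 <;> simp [h]; exact Prod.ext h.symm rfl

/-- Left multiplication in the second coordinate. -/
def lm (c : FG) : Equiv.Perm (ℤ × FG) := Equiv.prodCongr (Equiv.refl ℤ) (Equiv.mulLeft c)

/-- The images of the generators. -/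
def gen (n : ℕ) : Equiv.Perm (ℤ × FG) :=
  if n = 0 then shift else if n = 1 then mv (FreeGroup.of 0) else
    if n = 2 then mv (FreeGroup.of 1) else 1

/-- The action. -/
def act : FG →* Equiv.Perm (ℤ × FG) := FreeGroup.lift gen

theorem act_of (n : ℕ) : act (FreeGroup.of n) = gen n := FreeGroup.lift_apply_of

/-- The stabiliser of the base point. -/
def stab : Set FG := {k | act k (0, 1) = (0, 1)}

/-- The words starting with the first generator or its inverse. -/
def setA : Set FG := startsWith ((0 : ℕ), true) ∪ startsWith ((0 : ℕ), false)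

open Classical in
/-- Indicator of `setA`. -/
def indA (w : FG) : ℝ := if w ∈ setA then 1 else 0

/-- The multiplier. -/
def mult2 (g : FG) : ℝ := indA (act g⁻¹ (0, 1)).2

theorem abs_mult2_le (g : FG) : |mult2 g| ≤ 1 := by
  unfold mult2 indA; split_ifs <;> norm_num

theorem mult2_sq (g : FG) : mult2 g * mult2 g = mult2 g := by
  unfold mult2 indA; split_ifs <;> norm_num

theorem mult2_inv (k : FG) (hk : k ∈ stab) (g : FG) : mult2 (k * g) = mult2 g := by
  have h1 : act k⁻¹ (0, 1) = (0, 1) := by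
    rw [map_inv, Equiv.Perm.inv_eq_iff_eq]
    exact hk.symm
  simp only [mult2, mul_inv_rev, map_mul, Equiv.Perm.mul_apply, h1]

theorem lm_commute_gen (c : FG) (n : ℕ) : Commute (lm c) (gen n) := by
  have hmv : ∀ d : FG, Commute (lm c) (mv d) := by
    intro d
    ext x
    · simp [lm, mv]
    · by_cases h : x.1 = 0 <;> simp [lm, mv, h, mul_assoc]
  unfold gen
  split_ifs
  · ext x <;> simp [lm, shift]
  · exact hmv _
  · exact hmv _
  · exact Commute.one_right _

theorem lm_commute (c g : FG) : Commute (lm c) (act g) := by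
  have hg : g ∈ Subgroup.closure (Set.range (FreeGroup.of : ℕ → FG)) := by
    rw [FreeGroup.closure_range_of]; exact Subgroup.mem_top g
  induction hg using Subgroup.closure_induction with
  | mem s hs =>
    obtain ⟨n, rfl⟩ := hs
    rw [act_of]
    exact lm_commute_gen c n
  | one => rw [map_one]; exact Commute.one_right _
  | mul y z _ _ hy hz => rw [map_mul]; exact hy.mul_right hz
  | inv y _ hy => rw [map_inv]; exact hy.inv_right

theorem mv_pow_inv (c : FG) (i : ℕ) : ((mv c) ^ i)⁻¹ (0, 1) = (0, c ^ i) := by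
  induction i with
  | zero => simp
  | succ i ih =>
    rw [pow_succ, mul_inv_rev, Equiv.Perm.mul_apply, ih, pow_succ]
    rfl

theorem mult2_pow (s c : FG) (hs : act s = mv c) (i : ℕ) (g : FG) :
    mult2 (s ^ i * g) = indA (c ^ i * (act g⁻¹ (0, 1)).2) := by
  have h1 : act (s ^ i * g)⁻¹ (0, 1) = lm (c ^ i) (act g⁻¹ (0, 1)) := by
    rw [mul_inv_rev, map_mul, Equiv.Perm.mul_apply, map_inv act (s ^ i), map_pow, hs, mv_pow_inv,
      ← Equiv.Perm.mul_apply, (lm_commute (c ^ i) g⁻¹).eq, Equiv.Perm.mul_apply]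
    simp [lm]
  rw [mult2, h1]
  rfl

theorem pow_mul_mem (n : ℕ) (v : FG) (hv : v ∉ startsWith (n, false)) (j : ℕ) :
    FreeGroup.of n ^ (j + 1) * v ∈ startsWith (n, true) := by
  induction j with
  | zero =>
    rw [zero_add, pow_one]
    exact startsWith_mk_mul (w := (n, true)) v (by simpa using hv)
  | succ j ih =>
    rw [pow_succ', mul_assoc]
    exact startsWith_mk_mul (w := (n, true)) _ (not_mem_of_mem (by simp) ih)

theorem sum_le_one_of_unique (k : ℕ) (P : ℕ → Prop) [DecidablePred P]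
    (h : ∀ i j, P i → ¬ P (i + j + 1)) : ∑ i : Fin k, (if P i then (1 : ℝ) else 0) ≤ 1 := by
  rw [Finset.sum_boole]
  have : (Finset.univ.filter (fun i : Fin k => P i)).card ≤ 1 := by
    rw [Finset.card_le_one]
    intro i hi j hj
    rw [Finset.mem_filter] at hi hj
    by_contra hne
    rcases lt_or_gt_of_ne hne with hlt | hlt
    · obtain ⟨d, hd⟩ := Nat.exists_eq_add_of_lt (Fin.lt_def.1 hlt)
      exact h i d hi.2 (hd ▸ hj.2)
    · obtain ⟨d, hd⟩ := Nat.exists_eq_add_of_lt (Fin.lt_def.1 hlt)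
      exact h j d hj.2 (hd ▸ hi.2)
  exact_mod_cast this

theorem mult2_beta (k : ℕ) (g : FG) :
    ∑ i : Fin k, 1 * mult2 ((FreeGroup.of 2 : FG) ^ (i : ℕ) * g) ≤ 1 := by
  classical
  have hs : act (FreeGroup.of 2) = mv (FreeGroup.of 1) := by rw [act_of]; rfl
  simp only [one_mul, mult2_pow _ _ hs, indA]
  set w := (act g⁻¹ (0, 1)).2
  refine sum_le_one_of_unique k (fun i => FreeGroup.of 1 ^ i * w ∈ setA) (fun i j hi hj => ?_)
  have h1 : FreeGroup.of 1 ^ i * w ∉ startsWith ((1 : ℕ), false) := by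
    rcases hi with hi | hi <;> exact not_mem_of_mem (by simp) hi
  have h2 := pow_mul_mem 1 _ h1 j
  rw [← mul_assoc, ← pow_add, show j + 1 + i = i + j + 1 by ring] at h2
  rcases hj with hj | hj <;> exact not_mem_of_mem (by simp) h2 hj

theorem mult2_alpha (k : ℕ) (g : FG) :
    ∑ i : Fin k, (-1) * mult2 ((FreeGroup.of 1 : FG) ^ (i : ℕ) * g) ≤ 1 - k := by
  classical
  have hs : act (FreeGroup.of 1) = mv (FreeGroup.of 0) := by rw [act_of]; rfl
  simp only [mult2_pow _ _ hs, indA]
  set w := (act g⁻¹ (0, 1)).2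
  have h := sum_le_one_of_unique k (fun i => FreeGroup.of 0 ^ i * w ∉ setA) (fun i j hi hj => by
    have h1 : FreeGroup.of 0 ^ i * w ∉ startsWith ((0 : ℕ), false) := fun h => hi (Or.inr h)
    have h2 := pow_mul_mem 0 _ h1 j
    rw [← mul_assoc, ← pow_add, show j + 1 + i = i + j + 1 by ring] at h2
    exact hj (Or.inl h2))
  have h3 : ∀ i : Fin k, (-1 : ℝ) * (if FreeGroup.of 0 ^ (i : ℕ) * w ∈ setA then 1 else 0) =
      (if FreeGroup.of 0 ^ (i : ℕ) * w ∉ setA then 1 else 0) - 1 := by
    intro i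
    by_cases hi : FreeGroup.of 0 ^ (i : ℕ) * w ∈ setA <;> simp [hi]
  rw [Finset.sum_congr rfl (fun i _ => h3 i), Finset.sum_sub_distrib]
  simp only [Finset.sum_const, Finset.card_univ, Fintype.card_fin, nsmul_eq_mul, mul_one]
  linarith

theorem shift_pow_inv (m : ℕ) : (shift ^ m)⁻¹ (0, 1) = ((m : ℤ), 1) := by
  induction m with
  | zero => simp
  | succ m ih =>
    rw [pow_succ, mul_inv_rev, Equiv.Perm.mul_apply, ih, Equiv.Perm.inv_eq_iff_eq]
    simp [shift]

theorem conj_gen_mem (n : ℕ) (hn : n ≠ 0) (m : ℕ) :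
    (FreeGroup.of 0 : FG) ^ (m + 1) * FreeGroup.of n * ((FreeGroup.of 0 : FG) ^ (m + 1))⁻¹ ∈
      stab := by
  have h0 : act (FreeGroup.of 0) = shift := by rw [act_of]; rfl
  have h1 : gen n (((m + 1 : ℕ) : ℤ), 1) = (((m + 1 : ℕ) : ℤ), 1) := by
    have hm : ((m + 1 : ℕ) : ℤ) ≠ 0 := by omega
    unfold gen
    rw [if_neg hn]
    split_ifs
    · simp only [mv, Equiv.coe_fn_mk, if_neg hm]
    · simp only [mv, Equiv.coe_fn_mk, if_neg hm]
    · rfl
  change act _ _ = _
  rw [map_mul, map_mul, map_inv, map_pow, h0, act_of, Equiv.Perm.mul_apply, Equiv.Perm.mul_apply,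
    shift_pow_inv, h1, ← shift_pow_inv, ← Equiv.Perm.mul_apply, mul_inv_cancel,
    Equiv.Perm.one_apply]

theorem closure_gens :
    Subgroup.closure (insert (FreeGroup.of 0 : FG) {s | ∃ n : ℕ, n ≠ 0 ∧ s = FreeGroup.of n}) =
      ⊤ := by
  rw [eq_top_iff, ← FreeGroup.closure_range_of]
  refine Subgroup.closure_mono ?_
  rintro _ ⟨n, rfl⟩
  by_cases hn : n = 0
  · exact Or.inl (by rw [hn])
  · exact Or.inr ⟨n, hn, rfl⟩

theorem high_mem_stab (n : ℕ) (hn : 3 ≤ n) : (FreeGroup.of n : FG) ∈ stab := by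
  change act _ _ = _
  rw [act_of, gen, if_neg (by omega), if_neg (by omega), if_neg (by omega)]
  rfl

theorem stab_conj_infinite (g : FG) (hg : g ≠ 1) :
    Set.Infinite ((fun k => k * g * k⁻¹) '' stab) := by
  obtain ⟨B, hB⟩ : ∃ B : ℕ, ∀ x ∈ g.toWord, x.1 < B := by
    refine ⟨(g.toWord.map Prod.fst).sum + 1, fun x hx => Nat.lt_succ_of_le ?_⟩
    exact List.le_sum_of_mem (List.mem_map_of_mem hx)
  have key : ∀ m : ℕ, FreeGroup.of (m + B + 3) * g * (FreeGroup.of (m + B + 3))⁻¹ ∈
      startsWith (m + B + 3, true) := fun m =>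
    conj_mem_startsWith g hg _ (fun x hx => by have := hB x hx; omega)
  refine Set.infinite_of_injective_forall_mem
    (f := fun m : ℕ => FreeGroup.of (m + B + 3) * g * (FreeGroup.of (m + B + 3))⁻¹) ?_ ?_
  · intro m m' h
    by_contra hne
    have h1 := key m
    have h2 := key m'
    simp only at h
    rw [h] at h1
    exact not_mem_of_mem (by simpa using hne) h1 h2
  · intro m
    exact ⟨FreeGroup.of (m + B + 3), high_mem_stab _ (by omega), rfl⟩

end Pool.Agent.P.MP_7e3bdd_an
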