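import Mathlib

/-!
Translation and multiplication operators on the Hilbert space of square-summable functions on a
group, and an abstract criterion for the failure of the weak relative Dixmier property.
-/

set_option autoImplicit false

open scoped InnerProductSpace ENNReal

noncomputable section

namespace Pool.Agent.P.MP_7e3bdd_an

/-- Square-summable complex functions on `G`. -/
abbrev L2 (G : Type) : Type := lp (fun _ : G => ℂ) 2

variable {G : Type}

theorem memℓp_two_iff (f : G → ℂ) : Memℓp f 2 ↔ Summable fun g => ‖f g‖ ^ 2 := by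
  rw [memℓp_gen_iff (by norm_num)]
  simp

theorem hasSum_norm_sq (ξ : L2 G) : HasSum (fun g => ‖ξ g‖ ^ 2) (‖ξ‖ ^ 2) := by
  have := lp.hasSum_norm (p := 2) (by norm_num) ξ
  simpa using this

theorem norm_le_of_hasSum (ξ : L2 G) (C : ℝ) (hC : 0 ≤ C)
    (h : ∑' g, ‖ξ g‖ ^ 2 ≤ C ^ 2) : ‖ξ‖ ≤ C := by
  rw [(hasSum_norm_sq ξ).tsum_eq] at h
  exact (pow_le_pow_iff_left₀ (norm_nonneg _) hC two_ne_zero).1 h

/-- Composition with a permutation, as a linear map. -/
def compL (e : G ≃ G) : L2 G →ₗ[ℂ] L2 G where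
  toFun ξ := ⟨fun g => ξ (e g), by
    change Memℓp (fun g => ξ (e g)) 2
    rw [memℓp_two_iff]
    exact (e.summable_iff (f := fun g => ‖ξ g‖ ^ 2)).2 (hasSum_norm_sq ξ).summable⟩
  map_add' _ _ := rfl
  map_smul' _ _ := rfl

/-- Composition with a permutation, as a bounded operator. -/
def comp (e : G ≃ G) : L2 G →L[ℂ] L2 G :=
  (compL e).mkContinuous 1 (fun ξ => by
    rw [one_mul]
    refine norm_le_of_hasSum _ _ (norm_nonneg _) (le_of_eq ?_)
    rw [← (hasSum_norm_sq ξ).tsum_eq]
    exact e.tsum_eq (fun g => ‖ξ g‖ ^ 2))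

@[simp] theorem comp_apply (e : G ≃ G) (ξ : L2 G) (g : G) : comp e ξ g = ξ (e g) := rfl

theorem inner_comp_left (e : G ≃ G) (ξ η : L2 G) :
    ⟪comp e ξ, η⟫_ℂ = ⟪ξ, comp e.symm η⟫_ℂ := by
  rw [lp.inner_eq_tsum, lp.inner_eq_tsum]
  rw [← e.tsum_eq (fun g => ⟪ξ g, comp e.symm η g⟫_ℂ)]
  simp

theorem star_comp (e : G ≃ G) : star (comp e) = comp e.symm := by
  rw [ContinuousLinearMap.star_eq_adjoint]
  symm
  rw [ContinuousLinearMap.eq_adjoint_iff]
  intro ξ η
  simpa using inner_comp_left e.symm ξ η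

/-- Multiplication by a real function bounded by one, as a linear map. -/
def mulL (f : G → ℝ) (hf : ∀ g, |f g| ≤ 1) : L2 G →ₗ[ℂ] L2 G where
  toFun ξ := ⟨fun g => (f g : ℂ) * ξ g, by
    change Memℓp (fun g => (f g : ℂ) * ξ g) 2
    rw [memℓp_two_iff]
    refine Summable.of_nonneg_of_le (fun g => by positivity) (fun g => ?_)
      (hasSum_norm_sq ξ).summable
    rw [norm_mul, Complex.norm_real, Real.norm_eq_abs]
    gcongr
    exact mul_le_of_le_one_left (norm_nonneg _) (hf g)⟩
  map_add' ξ η := by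
    ext g
    change (f g : ℂ) * (ξ g + η g) = (f g : ℂ) * ξ g + (f g : ℂ) * η g
    ring
  map_smul' c ξ := by
    ext g
    change (f g : ℂ) * (c * ξ g) = c * ((f g : ℂ) * ξ g)
    ring

/-- Multiplication by a real function bounded by one, as a bounded operator. -/
def mul (f : G → ℝ) (hf : ∀ g, |f g| ≤ 1) : L2 G →L[ℂ] L2 G :=
  (mulL f hf).mkContinuous 1 (fun ξ => by
    rw [one_mul]
    refine norm_le_of_hasSum _ _ (norm_nonneg _) ?_
    rw [← (hasSum_norm_sq ξ).tsum_eq]
    refine Summable.tsum_le_tsum (fun g => ?_) (hasSum_norm_sq _).summable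
      (hasSum_norm_sq ξ).summable
    change ‖(f g : ℂ) * ξ g‖ ^ 2 ≤ _
    rw [norm_mul, Complex.norm_real, Real.norm_eq_abs]
    gcongr
    exact mul_le_of_le_one_left (norm_nonneg _) (hf g))

@[simp] theorem mul_apply (f : G → ℝ) (hf : ∀ g, |f g| ≤ 1) (ξ : L2 G) (g : G) :
    mul f hf ξ g = (f g : ℂ) * ξ g := rfl

/-- The commutant of a set of operators and of their adjoints, as a von Neumann algebra. -/
def commutantOf {H : Type} [NormedAddCommGroup H] [InnerProductSpace ℂ H] [CompleteSpace H]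
    (S : Set (H →L[ℂ] H)) : VonNeumannAlgebra H where
  toStarSubalgebra := StarSubalgebra.centralizer ℂ S
  centralizer_centralizer' := by
    change Set.centralizer (Set.centralizer (Set.centralizer (S ∪ star S))) =
      Set.centralizer (S ∪ star S)
    exact Set.centralizer_centralizer_centralizer _

theorem mem_commutantOf {H : Type} [NormedAddCommGroup H] [InnerProductSpace ℂ H]
    [CompleteSpace H] (S : Set (H →L[ℂ] H)) (z : H →L[ℂ] H) :
    z ∈ commutantOf S ↔ ∀ s ∈ S, s * z = z * s ∧ star s * z = z * star s :=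
  StarSubalgebra.mem_centralizer_iff ℂ

instance separable [Countable G] : TopologicalSpace.SeparableSpace (L2 G) := by
  classical
  let b : HilbertBasis G ℂ (L2 G) := default
  rw [← TopologicalSpace.isSeparable_univ_iff]
  have h1 : TopologicalSpace.IsSeparable (Set.range b) := (Set.countable_range b).isSeparable
  have h2 := (h1.span (R := ℂ)).closure
  have h3 := b.dense_span
  rw [← Submodule.topologicalClosure_coe, h3] at h2
  simpa using h2

section Group

variable [Group G] [DecidableEq G]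

/-- Left translation `ξ ↦ ξ (y * ·)`. -/
def lt (y : G) : L2 G →L[ℂ] L2 G := comp (Equiv.mulLeft y)

/-- Right translation `ξ ↦ ξ (· * y)`. -/
def rt (y : G) : L2 G →L[ℂ] L2 G := comp (Equiv.mulRight y)

omit [DecidableEq G] in
@[simp] theorem lt_apply (y : G) (ξ : L2 G) (g : G) : lt y ξ g = ξ (y * g) := rfl

omit [DecidableEq G] in
@[simp] theorem rt_apply (y : G) (ξ : L2 G) (g : G) : rt y ξ g = ξ (g * y) := rfl

omit [DecidableEq G] in
theorem star_lt (y : G) : star (lt y) = lt y⁻¹ := by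
  rw [lt, star_comp, Equiv.mulLeft_symm, lt]

omit [DecidableEq G] in
theorem lt_mul_rt (y z : G) : lt y * rt z = rt z * lt y := by
  ext ξ g
  simp [mul_assoc]

/-- The basis vector at `y`. -/
def delta (y : G) : L2 G := lp.single 2 y (1 : ℂ)

omit [Group G] in
theorem delta_apply (y g : G) : delta y g = if g = y then 1 else 0 := by
  simp [delta, lp.single_apply, Pi.single_apply]

omit [Group G] in
theorem norm_delta (y : G) : ‖delta y‖ = 1 := by
  rw [delta, lp.norm_single (by norm_num)]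
  simp

theorem lt_delta_one (y : G) : lt y⁻¹ (delta 1) = delta y := by
  ext g
  simp [delta_apply, inv_mul_eq_one, eq_comm]

theorem rt_delta_one (y : G) : rt y⁻¹ (delta 1) = delta y := by
  ext g
  simp [delta_apply, mul_inv_eq_one]

/-- The commutant of the left translations by elements of `K`. -/
def alg (K : Set G) : VonNeumannAlgebra (L2 G) := commutantOf (lt '' K)

omit [DecidableEq G] in
theorem mem_alg (K : Set G) (z : L2 G →L[ℂ] L2 G) :
    z ∈ alg K ↔ ∀ k ∈ K, lt k * z = z * lt k ∧ lt k⁻¹ * z = z * lt k⁻¹ := by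
  rw [alg, mem_commutantOf]
  simp [star_lt]

omit [DecidableEq G] in
theorem alg_univ_le (K : Set G) : ∀ a ∈ alg (Set.univ : Set G), a ∈ alg K := by
  intro a ha
  rw [mem_alg] at ha ⊢
  exact fun k _ => ha k (Set.mem_univ k)

omit [DecidableEq G] in
theorem rt_mem (y : G) : rt y ∈ alg (Set.univ : Set G) := by
  rw [mem_alg]
  exact fun k _ => ⟨lt_mul_rt _ _, lt_mul_rt _ _⟩

/-- Irreducibility from infinite relative conjugacy classes. -/
theorem irreducible (K : Set G)
    (hK : ∀ g : G, g ≠ 1 → Set.Infinite ((fun k => k * g * k⁻¹) '' K))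
    (z : L2 G →L[ℂ] L2 G) (hz : z ∈ alg K)
    (hc : ∀ y ∈ alg (Set.univ : Set G), z * y = y * z) :
    ∃ c : ℂ, z = c • (1 : L2 G →L[ℂ] L2 G) := by
  set ξ : L2 G := z (delta 1) with hξ
  have hr : ∀ y : G, z (delta y) = rt y⁻¹ ξ := by
    intro y
    have := congrArg (fun T : L2 G →L[ℂ] L2 G => T (delta 1)) (hc _ (rt_mem y⁻¹))
    simpa [rt_delta_one] using this
  have hl : ∀ k ∈ K, z (delta k⁻¹) = lt k ξ := by
    intro k hk
    have := congrArg (fun T : L2 G →L[ℂ] L2 G => T (delta 1)) (((mem_alg K z).1 hz k hk).1)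
    have h2 := lt_delta_one (k⁻¹)
    rw [inv_inv] at h2
    simpa [h2] using this.symm
  have hconj : ∀ k ∈ K, ∀ g : G, ξ (k * g * k⁻¹) = ξ g := by
    intro k hk g
    have h1 := hr k⁻¹
    rw [hl k hk, inv_inv] at h1
    have := congrArg (fun v : L2 G => v (g * k⁻¹)) h1
    simpa [mul_assoc] using this
  have hzero : ∀ g : G, g ≠ 1 → ξ g = 0 := by
    intro g hg
    by_contra hne
    have hs := (hasSum_norm_sq ξ).summable.tendsto_cofinite_zero
    have hpos : 0 < ‖ξ g‖ ^ 2 := by positivity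
    have hev := hs.eventually (gt_mem_nhds hpos)
    rw [Filter.eventually_cofinite] at hev
    refine hK g hg (hev.subset ?_)
    rintro _ ⟨k, hk, rfl⟩
    simp [hconj k hk g]
  refine ⟨ξ 1, ?_⟩
  refine lp.ext_continuousLinearMap (by norm_num) (fun y => ?_)
  ext1
  have : z (delta y) = ξ 1 • delta y := by
    rw [hr y]
    ext g
    by_cases h : g = y
    · simp [h, delta_apply]
    · simp [delta_apply, h, hzero _ (mul_inv_eq_one.not.2 h)]
  simpa [delta] using this

omit [DecidableEq G] in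
theorem mul_mem_alg (K : Set G) (f : G → ℝ) (hf : ∀ g, |f g| ≤ 1)
    (hK : ∀ k ∈ K, ∀ g, f (k * g) = f g) : mul f hf ∈ alg K := by
  rw [mem_alg]
  intro k hk
  constructor
  · ext ξ g
    simp [hK k hk]
  · ext ξ g
    have := hK k hk (k⁻¹ * g)
    simp only [mul_inv_cancel_left] at this
    simp [this]

/-- The diagonal entries of a unitary conjugate of a multiplication operator are averages. -/
theorem diag_hasSum (f : G → ℝ) (hf : ∀ g, |f g| ≤ 1) (u : L2 G →L[ℂ] L2 G)
    (hu : u ∈ alg (Set.univ : Set G)) (y : G) :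
    HasSum (fun g => f (y * g) * ‖(star u) (delta 1) g‖ ^ 2)
      (⟪delta y, (u * mul f hf * star u) (delta y)⟫_ℂ).re := by
  set η : L2 G := (star u) (delta 1) with hη
  have hu' : star u ∈ alg (Set.univ : Set G) := star_mem hu
  have h1 : (star u) (delta y) = lt y⁻¹ η := by
    have := congrArg (fun T : L2 G →L[ℂ] L2 G => T (delta 1))
      (((mem_alg _ _).1 hu' y (Set.mem_univ y)).2)
    simpa [lt_delta_one] using this.symm
  have h2 : ⟪delta y, (u * mul f hf * star u) (delta y)⟫_ℂ =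
      ⟪lt y⁻¹ η, mul f hf (lt y⁻¹ η)⟫_ℂ := by
    rw [← h1, ContinuousLinearMap.star_eq_adjoint, ContinuousLinearMap.adjoint_inner_left]
    rfl
  rw [h2]
  have h3 := Complex.hasSum_re (lp.hasSum_inner (𝕜 := ℂ) (lt y⁻¹ η) (mul f hf (lt y⁻¹ η)))
  rw [← (Equiv.mulLeft y).hasSum_iff] at h3
  convert h3 using 2 with g
  simp only [Function.comp_apply, Equiv.coe_mulLeft, lt_apply, inv_mul_cancel_left, mul_apply,
    RCLike.inner_apply]
  rw [mul_assoc, Complex.mul_conj, ← Complex.ofReal_mul, Complex.ofReal_re,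
    Complex.normSq_eq_norm_sq]

/-- The four diagonal entries of a unitary conjugate satisfy a linear inequality. -/
theorem diag_ineq (f : G → ℝ) (hf : ∀ g, |f g| ≤ 1) (y : Fin 4 → G)
    (hy : ∀ g, 1 ≤ f (y 0 * g) + f (y 1 * g) - f (y 2 * g) - f (y 3 * g))
    (u : L2 G →L[ℂ] L2 G) (hu : u ∈ unitary (L2 G →L[ℂ] L2 G))
    (huN : u ∈ alg (Set.univ : Set G)) :
    1 ≤ (⟪delta (y 0), (u * mul f hf * star u) (delta (y 0))⟫_ℂ).re
      + (⟪delta (y 1), (u * mul f hf * star u) (delta (y 1))⟫_ℂ).re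
      - (⟪delta (y 2), (u * mul f hf * star u) (delta (y 2))⟫_ℂ).re
      - (⟪delta (y 3), (u * mul f hf * star u) (delta (y 3))⟫_ℂ).re := by
  have h0 := diag_hasSum f hf u huN (y 0)
  have h1 := diag_hasSum f hf u huN (y 1)
  have h2 := diag_hasSum f hf u huN (y 2)
  have h3 := diag_hasSum f hf u huN (y 3)
  have hs := ((h0.add h1).sub h2).sub h3
  have hn := hasSum_norm_sq ((star u) (delta (1 : G)))
  have hnorm : ‖(star u) (delta (1 : G))‖ = 1 := by
    rw [ContinuousLinearMap.norm_map_of_mem_unitary (Unitary.star_mem hu), norm_delta]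
  rw [hnorm, one_pow] at hn
  refine hasSum_le (fun g => ?_) hn hs
  have := hy g
  have hp : 0 ≤ ‖(star u) (delta 1) g‖ ^ 2 := by positivity
  nlinarith

end Group

/-- A set of operators on which four diagonal entries satisfy a linear inequality has no scalar
in the weak closure of its convex hull. -/
theorem no_scalar {H : Type} [NormedAddCommGroup H] [InnerProductSpace ℂ H] [CompleteSpace H]
    (S : Set (H →L[ℂ] H)) (v : Fin 4 → H) (hv : ∀ i, ‖v i‖ = 1)
    (hS : ∀ T ∈ S, 1 ≤ (⟪v 0, T (v 0)⟫_ℂ).re + (⟪v 1, T (v 1)⟫_ℂ).re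
      - (⟪v 2, T (v 2)⟫_ℂ).re - (⟪v 3, T (v 3)⟫_ℂ).re) :
    ¬ ∃ c : ℂ, ∀ (n : ℕ) (ξ η : Fin n → H) (ε : ℝ), 0 < ε →
        ∃ T ∈ convexHull ℝ S,
          ∀ i : Fin n, ‖⟪η i, (T - c • (1 : H →L[ℂ] H)) (ξ i)⟫_ℂ‖ < ε := by
  rintro ⟨c, hc⟩
  obtain ⟨T, hT, hTc⟩ := hc 4 v v (1 / 4) (by norm_num)
  let d : Fin 4 → (H →L[ℂ] H) → ℝ := fun i T => (⟪v i, T (v i)⟫_ℂ).re
  let Φ : (H →L[ℂ] H) → ℝ := fun T => d 0 T + d 1 T - d 2 T - d 3 T
  have hlin : IsLinearMap ℝ Φ := by
    constructor
    · intro S T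
      simp only [Φ, d, add_apply, inner_add_right, Complex.add_re]
      ring
    · intro a T
      have : ∀ i, d i (a • T) = a * d i T := by
        intro i
        have h1 : (a • T) (v i) = (a : ℂ) • T (v i) := rfl
        simp only [d]
        rw [h1, inner_smul_right]
        simp
      simp only [Φ, this, smul_eq_mul]
      ring
  have hge : 1 ≤ Φ T :=
    convexHull_min (t := {T | 1 ≤ Φ T}) hS (convex_halfSpace_ge hlin 1) hT
  have hd : ∀ i : Fin 4, |d i T - c.re| < 1 / 4 := by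
    intro i
    have h := hTc i
    refine lt_of_le_of_lt ?_ h
    refine le_trans (le_of_eq ?_) (Complex.abs_re_le_norm _)
    congr 1
    simp only [d, sub_apply, smul_apply, one_apply_eq_self, inner_sub_right, inner_smul_right,
      Complex.sub_re]
    rw [inner_self_eq_norm_sq_to_K, hv]
    simp
  have e0 := abs_lt.1 (hd 0)
  have e1 := abs_lt.1 (hd 1)
  have e2 := abs_lt.1 (hd 2)
  have e3 := abs_lt.1 (hd 3)
  simp only [Φ] at hge
  linarith [e0.1, e0.2, e1.1, e1.2, e2.1, e2.2, e3.1, e3.2]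

end Pool.Agent.P.MP_7e3bdd_an
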