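import Mathlib

/-!
Weak operator limits of bounded sequences of operators along an ultrafilter.
-/

set_option autoImplicit false

open scoped InnerProductSpace Topology ComplexConjugate
open Filter

noncomputable section

namespace Pool.Agent.P.MP_7e3bdd_an

variable {H : Type} [NormedAddCommGroup H] [InnerProductSpace ℂ H] [CompleteSpace H]

theorem exists_ulim (s : ℕ → ℂ) (C : ℝ) (hs : ∀ n, ‖s n‖ ≤ C) :
    ∃ l : ℂ, Tendsto s (hyperfilter ℕ : Filter ℕ) (𝓝 l) := by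
  have hc : IsCompact (Metric.closedBall (0 : ℂ) C) := isCompact_closedBall _ _
  have hle : (Ultrafilter.map s (hyperfilter ℕ) : Filter ℂ) ≤ 𝓟 (Metric.closedBall (0 : ℂ) C) := by
    rw [Ultrafilter.coe_map, le_principal_iff, mem_map]
    exact Eventually.of_forall (fun n => by simpa using hs n)
  obtain ⟨l, _, hl⟩ := hc.ultrafilter_le_nhds _ hle
  exact ⟨l, hl⟩

/-- `S` is the weak operator limit of `T` along the hyperfilter. -/
def WLim (T : ℕ → H →L[ℂ] H) (S : H →L[ℂ] H) : Prop :=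
  ∀ ξ η : H, Tendsto (fun n => ⟪η, T n ξ⟫_ℂ) (hyperfilter ℕ : Filter ℕ) (𝓝 ⟪η, S ξ⟫_ℂ)

theorem exists_wlim (T : ℕ → H →L[ℂ] H) (C : ℝ) (hT : ∀ n, ‖T n‖ ≤ C) :
    ∃ S : H →L[ℂ] H, WLim T S := by
  have hb : ∀ v w : H, ∀ n, ‖⟪T n v, w⟫_ℂ‖ ≤ C * ‖v‖ * ‖w‖ := by
    intro v w n
    refine (norm_inner_le_norm _ _).trans ?_
    gcongr
    exact ((T n).le_opNorm v).trans (by gcongr; exact hT n)
  choose L hL using fun v w : H => exists_ulim (fun n => ⟪T n v, w⟫_ℂ) _ (hb v w)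
  let B₀ : H →ₛₗ[starRingEnd ℂ] H →ₛₗ[RingHom.id ℂ] ℂ :=
    LinearMap.mk₂'ₛₗ (starRingEnd ℂ) (RingHom.id ℂ) L
      (fun v₁ v₂ w => tendsto_nhds_unique (hL (v₁ + v₂) w) (by
        simpa [inner_add_left] using (hL v₁ w).add (hL v₂ w)))
      (fun c v w => tendsto_nhds_unique (hL (c • v) w) (by
        simpa [inner_smul_left, mul_comm] using (hL v w).const_mul (conj c)))
      (fun v w₁ w₂ => tendsto_nhds_unique (hL v (w₁ + w₂)) (by
        simpa [inner_add_right] using (hL v w₁).add (hL v w₂)))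
      (fun c v w => tendsto_nhds_unique (hL v (c • w)) (by
        simpa [inner_smul_right] using (hL v w).const_mul c))
  have hB₀ : ∀ v w, ‖B₀ v w‖ ≤ C * ‖v‖ * ‖w‖ := fun v w =>
    le_of_tendsto' (hL v w).norm (hb v w)
  refine ⟨InnerProductSpace.continuousLinearMapOfBilin (B₀.mkContinuous₂ C hB₀), fun ξ η => ?_⟩
  have h1 : ⟪InnerProductSpace.continuousLinearMapOfBilin (B₀.mkContinuous₂ C hB₀) ξ, η⟫_ℂ =
      L ξ η := by
    rw [InnerProductSpace.continuousLinearMapOfBilin_apply]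
    rfl
  have h2 := (Complex.continuous_conj.tendsto _).comp (hL ξ η)
  rw [← inner_conj_symm, h1]
  simpa [Function.comp_def] using h2

omit [CompleteSpace H] in
theorem WLim.unique {T : ℕ → H →L[ℂ] H} {S S' : H →L[ℂ] H} (h : WLim T S) (h' : WLim T S') :
    S = S' := by
  ext ξ
  exact ext_inner_left ℂ (fun η => tendsto_nhds_unique (h ξ η) (h' ξ η))

omit [CompleteSpace H] in
theorem WLim.const (S : H →L[ℂ] H) : WLim (fun _ => S) S := fun _ _ => tendsto_const_nhds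

omit [CompleteSpace H] in
theorem WLim.add {T T' : ℕ → H →L[ℂ] H} {S S' : H →L[ℂ] H} (h : WLim T S) (h' : WLim T' S') :
    WLim (fun n => T n + T' n) (S + S') := fun ξ η => by
  simpa [inner_add_right] using (h ξ η).add (h' ξ η)

omit [CompleteSpace H] in
theorem WLim.smul {T : ℕ → H →L[ℂ] H} {S : H →L[ℂ] H} (h : WLim T S) (c : ℂ) :
    WLim (fun n => c • T n) (c • S) := fun ξ η => by
  simpa [inner_smul_right] using (h ξ η).const_mul c

theorem WLim.mul_mul {T : ℕ → H →L[ℂ] H} {S : H →L[ℂ] H} (h : WLim T S) (a b : H →L[ℂ] H) :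
    WLim (fun n => a * T n * b) (a * S * b) := fun ξ η => by
  have := h (b ξ) (ContinuousLinearMap.adjoint a η)
  simpa [ContinuousLinearMap.adjoint_inner_left] using this

omit [CompleteSpace H] in
theorem WLim.norm_le {T : ℕ → H →L[ℂ] H} {S : H →L[ℂ] H} (h : WLim T S) (C : ℝ) (hC : 0 ≤ C)
    (hT : ∀ n, ‖T n‖ ≤ C) : ‖S‖ ≤ C := by
  refine S.opNorm_le_bound hC (fun ξ => ?_)
  have h1 : ‖⟪S ξ, S ξ⟫_ℂ‖ ≤ ‖S ξ‖ * (C * ‖ξ‖) := by
    refine le_of_tendsto' (h ξ (S ξ)).norm (fun n => ?_)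
    refine (norm_inner_le_norm _ _).trans ?_
    gcongr
    exact ((T n).le_opNorm ξ).trans (by gcongr; exact hT n)
  rw [inner_self_eq_norm_sq_to_K] at h1
  have h2 : ‖S ξ‖ * ‖S ξ‖ ≤ ‖S ξ‖ * (C * ‖ξ‖) := by
    simpa [sq] using h1
  rcases (norm_nonneg (S ξ)).eq_or_lt with h0 | h0
  · rw [← h0]; positivity
  · exact le_of_mul_le_mul_left h2 h0

omit [CompleteSpace H] in
theorem WLim.of_sub {T T' : ℕ → H →L[ℂ] H} {S : H →L[ℂ] H} (h : WLim T S)
    (hd : Tendsto (fun n => ‖T' n - T n‖) atTop (𝓝 0)) : WLim T' S := fun ξ η => by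
  have h1 : Tendsto (fun n => ⟪η, (T' n - T n) ξ⟫_ℂ) (hyperfilter ℕ : Filter ℕ) (𝓝 0) := by
    rw [tendsto_zero_iff_norm_tendsto_zero]
    have h2 : Tendsto (fun n => ‖η‖ * (‖T' n - T n‖ * ‖ξ‖)) (hyperfilter ℕ : Filter ℕ) (𝓝 0) := by
      have := ((hd.mul_const ‖ξ‖).const_mul ‖η‖).mono_left Nat.hyperfilter_le_atTop
      simpa using this
    refine squeeze_zero (fun n => norm_nonneg _) (fun n => ?_) h2
    refine (norm_inner_le_norm _ _).trans ?_
    gcongr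
    exact (T' n - T n).le_opNorm ξ
  have := (h ξ η).add h1
  simpa [inner_sub_right] using this

omit [CompleteSpace H] in
theorem WLim.isPositive {T : ℕ → H →L[ℂ] H} {S : H →L[ℂ] H} (h : WLim T S)
    (hT : ∀ n, (T n).IsPositive) : S.IsPositive := by
  open ComplexOrder in
  have h1 : ∀ ξ, 0 ≤ ⟪ξ, S ξ⟫_ℂ := fun ξ =>
    ge_of_tendsto' (h ξ ξ) (fun n => (hT n).inner_nonneg_right ξ)
  rw [ContinuousLinearMap.isPositive_iff_complex]
  intro ξ
  have h2 := h1 ξ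
  rw [Complex.nonneg_iff] at h2
  have h3 : ⟪S ξ, ξ⟫_ℂ = conj ⟪ξ, S ξ⟫_ℂ := (inner_conj_symm _ _).symm
  generalize ⟪ξ, S ξ⟫_ℂ = z at h2 h3
  rw [h3]
  constructor
  · apply Complex.ext
    · simp
    · simp [h2.2.symm]
  · simpa using h2.1

end Pool.Agent.P.MP_7e3bdd_an
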