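import Pool.Agent.P.MP_7e3bdd_an.Basic
import Pool.Agent.P.MP_7e3bdd_an.Wot

/-!
A conditional expectation from the commutant of the left translations by a co-amenable set `K`
onto the commutant of all left translations, and the trace vector of the latter.
-/

set_option autoImplicit false

open scoped InnerProductSpace Topology ComplexConjugate
open Filter

noncomputable section

namespace Pool.Agent.P.MP_7e3bdd_an

variable {G : Type} [Group G]

theorem lt_mul_lt (y z : G) : lt y * lt z = lt (z * y) := by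
  ext ξ g
  simp [mul_assoc]

theorem lt_one : lt (1 : G) = 1 := by
  ext ξ g
  simp

theorem norm_lt_le (y : G) : ‖lt y‖ ≤ 1 := by
  unfold lt comp
  exact LinearMap.mkContinuous_norm_le _ zero_le_one _

/-- Conjugation by a left translation. -/
def cj (y : G) (x : L2 G →L[ℂ] L2 G) : L2 G →L[ℂ] L2 G := lt y * x * lt y⁻¹

theorem norm_cj_le (y : G) (x : L2 G →L[ℂ] L2 G) : ‖cj y x‖ ≤ ‖x‖ := by
  have h1 := norm_lt_le y
  have h2 := norm_lt_le y⁻¹
  calc ‖cj y x‖ ≤ ‖lt y‖ * ‖x‖ * ‖lt y⁻¹‖ :=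
        (norm_mul_le _ _).trans (by gcongr; exact norm_mul_le _ _)
    _ ≤ 1 * ‖x‖ * 1 := by gcongr
    _ = ‖x‖ := by ring

theorem cj_cj (y z : G) (x : L2 G →L[ℂ] L2 G) : lt y * cj z x * lt y⁻¹ = cj (z * y) x := by
  simp only [cj, ← lt_mul_lt, mul_inv_rev, mul_assoc]

theorem cj_of_comm (k : G) (x : L2 G →L[ℂ] L2 G) (h : lt k * x = x * lt k) : cj k x = x := by
  rw [cj, h, mul_assoc, lt_mul_lt, inv_mul_cancel, lt_one, mul_one]

theorem comm_of_cj (k : G) (x : L2 G →L[ℂ] L2 G) (h : cj k x = x) : lt k * x = x * lt k := by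
  have : cj k x * lt k = lt k * x := by
    rw [cj, mul_assoc, lt_mul_lt, mul_inv_cancel, lt_one, mul_one]
  rw [← this, h]

theorem cj_mul_mul (y : G) (a b x : L2 G →L[ℂ] L2 G) (ha : a ∈ alg (Set.univ : Set G))
    (hb : b ∈ alg (Set.univ : Set G)) : cj y (a * x * b) = a * cj y x * b := by
  have h1 := ((mem_alg _ _).1 ha y (Set.mem_univ y)).1
  have h2 := ((mem_alg _ _).1 hb y (Set.mem_univ y)).2
  simp only [cj, mul_assoc]
  rw [← h2, ← mul_assoc (lt y) a, h1, mul_assoc]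

theorem cj_isPositive (y : G) (x : L2 G →L[ℂ] L2 G) (hx : x.IsPositive) :
    (cj y x).IsPositive := by
  have := hx.conj_adjoint (lt y)
  rwa [← ContinuousLinearMap.star_eq_adjoint, star_lt] at this

/-- The averages along the powers of `t`. -/
def avg (t : G) (x : L2 G →L[ℂ] L2 G) (n : ℕ) : L2 G →L[ℂ] L2 G :=
  ((n + 1 : ℕ) : ℂ)⁻¹ • ∑ m ∈ Finset.range (n + 1), cj (t ^ (m + 1)) x

theorem norm_avg_le (t : G) (x : L2 G →L[ℂ] L2 G) (n : ℕ) : ‖avg t x n‖ ≤ ‖x‖ := by
  rw [avg, norm_smul, norm_inv, Complex.norm_natCast]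
  have h : ‖∑ m ∈ Finset.range (n + 1), cj (t ^ (m + 1)) x‖ ≤ ((n + 1 : ℕ) : ℝ) * ‖x‖ := by
    refine (norm_sum_le _ _).trans ?_
    refine (Finset.sum_le_sum (fun m _ => norm_cj_le _ x)).trans ?_
    simp
  have hp : (0 : ℝ) < ((n + 1 : ℕ) : ℝ) := by positivity
  rw [inv_mul_le_iff₀ hp]
  exact h

theorem avg_add (t : G) (x y : L2 G →L[ℂ] L2 G) (n : ℕ) :
    avg t (x + y) n = avg t x n + avg t y n := by
  simp only [avg, cj, mul_add, add_mul, Finset.sum_add_distrib, smul_add]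

theorem avg_smul (t : G) (c : ℂ) (x : L2 G →L[ℂ] L2 G) (n : ℕ) :
    avg t (c • x) n = c • avg t x n := by
  simp only [avg, cj, mul_smul_comm, smul_mul_assoc, ← Finset.smul_sum]
  rw [smul_comm]

theorem avg_mul_mul (t : G) (a b x : L2 G →L[ℂ] L2 G) (ha : a ∈ alg (Set.univ : Set G))
    (hb : b ∈ alg (Set.univ : Set G)) (n : ℕ) : avg t (a * x * b) n = a * avg t x n * b := by
  simp only [avg, cj_mul_mul _ a b x ha hb, mul_smul_comm, smul_mul_assoc, Finset.mul_sum,
    Finset.sum_mul]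

theorem avg_of_mem (t : G) (a : L2 G →L[ℂ] L2 G) (ha : a ∈ alg (Set.univ : Set G)) (n : ℕ) :
    avg t a n = a := by
  have h : ∀ y : G, cj y a = a := fun y =>
    cj_of_comm y a ((mem_alg _ _).1 ha y (Set.mem_univ y)).1
  simp only [avg, h, Finset.sum_const, Finset.card_range]
  rw [← Nat.cast_smul_eq_nsmul ℂ, smul_smul, inv_mul_cancel₀ (by exact_mod_cast n.succ_ne_zero),
    one_smul]

theorem avg_isPositive (t : G) (x : L2 G →L[ℂ] L2 G) (hx : x.IsPositive) (n : ℕ) :
    (avg t x n).IsPositive := by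
  open ComplexOrder in
  refine (ContinuousLinearMap.isPositive_sum _ (fun m _ => cj_isPositive _ x hx)).smul_of_nonneg ?_
  positivity

theorem cj_avg (t s : G) (x : L2 G →L[ℂ] L2 G) (n : ℕ) :
    lt s * avg t x n * lt s⁻¹ =
      ((n + 1 : ℕ) : ℂ)⁻¹ • ∑ m ∈ Finset.range (n + 1), cj (t ^ (m + 1) * s) x := by
  simp only [avg, mul_smul_comm, smul_mul_assoc, Finset.mul_sum, Finset.sum_mul, cj_cj]

theorem cj_avg_gen (K : Set G) (t s : G) (hs : ∀ m : ℕ, t ^ (m + 1) * s * (t ^ (m + 1))⁻¹ ∈ K)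
    (x : L2 G →L[ℂ] L2 G) (hx : x ∈ alg K) (n : ℕ) :
    lt s * avg t x n * lt s⁻¹ = avg t x n := by
  rw [cj_avg, avg]
  congr 1
  refine Finset.sum_congr rfl (fun m _ => ?_)
  have h1 := cj_of_comm _ x ((mem_alg _ _).1 hx _ (hs m)).1
  have h2 := cj_cj (t ^ (m + 1)) (t ^ (m + 1) * s * (t ^ (m + 1))⁻¹) x
  rw [h1, inv_mul_cancel_right] at h2
  rw [← h2, cj]

theorem cj_avg_shift (t : G) (x : L2 G →L[ℂ] L2 G) :
    Tendsto (fun n => ‖lt t * avg t x n * lt t⁻¹ - avg t x n‖) atTop (𝓝 0) := by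
  have h : ∀ n : ℕ, ‖lt t * avg t x n * lt t⁻¹ - avg t x n‖ ≤ (2 * ‖x‖) / ((n : ℝ) + 1) := by
    intro n
    rw [cj_avg, avg, ← smul_sub, ← Finset.sum_sub_distrib]
    have h1 : ∑ m ∈ Finset.range (n + 1), (cj (t ^ (m + 1) * t) x - cj (t ^ (m + 1)) x) =
        cj (t ^ (n + 1 + 1)) x - cj (t ^ (0 + 1)) x := by
      rw [← Finset.sum_range_sub (fun m => cj (t ^ (m + 1)) x) (n + 1)]
      refine Finset.sum_congr rfl (fun m _ => ?_)
      rw [← pow_succ]
    rw [h1, norm_smul, norm_inv, Complex.norm_natCast, div_eq_inv_mul]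
    push_cast
    gcongr
    refine (norm_sub_le _ _).trans ?_
    have := norm_cj_le (t ^ (n + 1 + 1)) x
    have := norm_cj_le (t ^ (0 + 1)) x
    linarith
  refine squeeze_zero (fun n => norm_nonneg _) h ?_
  exact tendsto_const_nhds.div_atTop
    (tendsto_atTop_add_const_right _ _ tendsto_natCast_atTop_atTop)

/-- The conditional expectation. -/
theorem exists_expectation (K : Set G) (t : G) (S : Set G)
    (hgen : Subgroup.closure (insert t S) = ⊤)
    (hS : ∀ s ∈ S, ∀ m : ℕ, t ^ (m + 1) * s * (t ^ (m + 1))⁻¹ ∈ K) :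
    ∃ E : (L2 G →L[ℂ] L2 G) →ₗ[ℂ] (L2 G →L[ℂ] L2 G),
      (∀ x ∈ alg K, E x ∈ alg (Set.univ : Set G)) ∧
      (∀ a ∈ alg (Set.univ : Set G), E a = a) ∧
      (∀ a ∈ alg (Set.univ : Set G), ∀ b ∈ alg (Set.univ : Set G), ∀ x,
        E (a * x * b) = a * E x * b) ∧
      (∀ x : L2 G →L[ℂ] L2 G, x.IsPositive → (E x).IsPositive) ∧
      (∀ x, ‖E x‖ ≤ ‖x‖) := by
  choose E₀ hE using fun x : L2 G →L[ℂ] L2 G => exists_wlim (avg t x) ‖x‖ (norm_avg_le t x)
  let E : (L2 G →L[ℂ] L2 G) →ₗ[ℂ] (L2 G →L[ℂ] L2 G) :=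
    { toFun := E₀
      map_add' := fun x y => (hE (x + y)).unique (by
        have := (hE x).add (hE y)
        simpa only [← avg_add] using this)
      map_smul' := fun c x => (hE (c • x)).unique (by
        have h1 : avg t (c • x) = fun n => c • avg t x n := funext (avg_smul t c x)
        rw [h1]
        exact (hE x).smul c) }
  refine ⟨E, fun x hx => ?_, fun a ha => ?_, fun a ha b hb x => ?_, fun x hx => ?_, fun x => ?_⟩
  · have key : ∀ g : G, cj g (E₀ x) = E₀ x := by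
      intro g
      have hg : g ∈ Subgroup.closure (insert t S) := hgen ▸ Subgroup.mem_top g
      induction hg using Subgroup.closure_induction with
      | mem s hs =>
        rcases hs with rfl | hs
        · exact ((hE x).mul_mul (lt s) (lt s⁻¹)).unique ((hE x).of_sub (cj_avg_shift s x))
        · refine ((hE x).mul_mul (lt s) (lt s⁻¹)).unique ?_
          simpa only [cj_avg_gen K t s (hS s hs) x hx] using hE x
      | one => simp [cj, lt_one]
      | mul y z _ _ hy hz => rw [← cj_cj, hy]; exact hz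
      | inv y _ hy =>
        have := cj_cj y⁻¹ y (E₀ x)
        rw [hy, mul_inv_cancel] at this
        rw [cj, this]
        simp [cj, lt_one]
    rw [mem_alg]
    exact fun k _ => ⟨comm_of_cj k _ (key k), comm_of_cj k⁻¹ _ (key k⁻¹)⟩
  · refine (hE a).unique ?_
    have : avg t a = fun _ => a := funext (avg_of_mem t a ha)
    rw [this]
    exact WLim.const a
  · refine (hE (a * x * b)).unique ?_
    have : avg t (a * x * b) = fun n => a * avg t x n * b := funext (avg_mul_mul t a b x ha hb)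
    rw [this]
    exact (hE x).mul_mul a b
  · exact (hE x).isPositive (avg_isPositive t x hx)
  · exact (hE x).norm_le _ (norm_nonneg _) (norm_avg_le t x)

variable [DecidableEq G]

theorem apply_delta (a : L2 G →L[ℂ] L2 G) (ha : a ∈ alg (Set.univ : Set G)) (y : G) :
    a (delta y) = lt y⁻¹ (a (delta 1)) := by
  have := congrArg (fun T : L2 G →L[ℂ] L2 G => T (delta 1))
    (((mem_alg _ _).1 ha y (Set.mem_univ y)).2)
  simpa [lt_delta_one] using this.symm

omit [Group G] in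
theorem inner_delta (y : G) (ξ : L2 G) : ⟪delta y, ξ⟫_ℂ = ξ y := by
  rw [delta, lp.inner_single_left]
  simp

theorem separating (a : L2 G →L[ℂ] L2 G) (ha : a ∈ alg (Set.univ : Set G))
    (h : a (delta 1) = 0) : a = 0 := by
  refine lp.ext_continuousLinearMap (by norm_num) (fun y => ?_)
  ext1
  have := apply_delta a ha y
  rw [h, map_zero] at this
  simpa [delta] using this

theorem trace_hasSum (a b : L2 G →L[ℂ] L2 G) (ha : a ∈ alg (Set.univ : Set G)) :
    HasSum (fun y : G => a (delta 1) y⁻¹ * b (delta 1) y) ⟪delta (1 : G), (a * b) (delta 1)⟫_ℂ := by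
  have h1 : ⟪delta (1 : G), (a * b) (delta 1)⟫_ℂ =
      ⟪ContinuousLinearMap.adjoint a (delta 1), b (delta 1)⟫_ℂ := by
    rw [ContinuousLinearMap.adjoint_inner_left]
    rfl
  rw [h1]
  have h2 := lp.hasSum_inner (𝕜 := ℂ) (ContinuousLinearMap.adjoint a (delta 1)) (b (delta 1))
  have h3 : ∀ y : G, conj (ContinuousLinearMap.adjoint a (delta (1 : G)) y) = a (delta 1) y⁻¹ := by
    intro y
    rw [← inner_delta y, inner_conj_symm, ContinuousLinearMap.adjoint_inner_left, inner_delta,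
      apply_delta a ha y]
    simp
  have h4 : (fun y : G => a (delta 1) y⁻¹ * b (delta 1) y) = fun y : G =>
      ⟪ContinuousLinearMap.adjoint a (delta (1 : G)) y, b (delta 1) y⟫_ℂ := by
    funext y
    rw [RCLike.inner_apply, h3, mul_comm]
  rw [h4]
  exact h2

theorem trace_comm (a b : L2 G →L[ℂ] L2 G) (ha : a ∈ alg (Set.univ : Set G))
    (hb : b ∈ alg (Set.univ : Set G)) :
    ⟪delta (1 : G), (a * b) (delta 1)⟫_ℂ = ⟪delta (1 : G), (b * a) (delta 1)⟫_ℂ := by
  have h1 := trace_hasSum a b ha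
  have h2 := trace_hasSum b a hb
  rw [← (Equiv.inv G).hasSum_iff] at h2
  refine h1.unique ?_
  have h4 : (fun y : G => a (delta 1) y⁻¹ * b (delta 1) y) =
      (fun y : G => b (delta 1) y⁻¹ * a (delta 1) y) ∘ (Equiv.inv G) := by
    funext y
    simp [mul_comm]
  rw [h4]
  exact h2

end Pool.Agent.P.MP_7e3bdd_an
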