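import Pool.Agent.P.MP_7e3bdd_an.Exp

/-!
Distance from the scalars of the weak closure of the convex hull of a unitary orbit.
-/

set_option autoImplicit false

open scoped InnerProductSpace Topology ComplexConjugate
open Filter

noncomputable section

namespace Pool.Agent.P.MP_7e3bdd_an

variable {G : Type}

theorem mul_isStarProjection (f : G → ℝ) (hf : ∀ g, |f g| ≤ 1) (h01 : ∀ g, f g * f g = f g) :
    IsStarProjection (mul f hf) := by
  constructor
  · ext ξ g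
    change (f g : ℂ) * ((f g : ℂ) * ξ g) = (f g : ℂ) * ξ g
    rw [← mul_assoc, ← Complex.ofReal_mul, h01]
  · rw [ContinuousLinearMap.isSelfAdjoint_iff_isSymmetric]
    intro ξ η
    change ⟪mul f hf ξ, η⟫_ℂ = ⟪ξ, mul f hf η⟫_ℂ
    rw [lp.inner_eq_tsum, lp.inner_eq_tsum]
    refine tsum_congr (fun g => ?_)
    simp only [mul_apply, RCLike.inner_apply, map_mul, Complex.conj_ofReal]
    ring

variable [Group G] [DecidableEq G]

theorem diag_sum_le (f : G → ℝ) (hf : ∀ g, |f g| ≤ 1) (k : ℕ) (y : Fin k → G) (s C : ℝ)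
    (hy : ∀ g, ∑ i, s * f (y i * g) ≤ C)
    (u : L2 G →L[ℂ] L2 G) (hu : u ∈ unitary (L2 G →L[ℂ] L2 G))
    (huN : u ∈ alg (Set.univ : Set G)) :
    ∑ i, s * (⟪delta (y i), (u * mul f hf * star u) (delta (y i))⟫_ℂ).re ≤ C := by
  have h0 := fun i => (diag_hasSum f hf u huN (y i)).mul_left s
  have hs := hasSum_sum (s := Finset.univ) (fun i _ => h0 i)
  have hn := hasSum_norm_sq ((star u) (delta (1 : G)))
  have hnorm : ‖(star u) (delta (1 : G))‖ = 1 := by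
    rw [ContinuousLinearMap.norm_map_of_mem_unitary (Unitary.star_mem hu), norm_delta]
  rw [hnorm, one_pow] at hn
  have hn' := hn.mul_left C
  rw [mul_one] at hn'
  refine hasSum_le (fun g => ?_) hs hn'
  have hp : 0 ≤ ‖(star u) (delta 1) g‖ ^ 2 := by positivity
  simp only [← mul_assoc, ← Finset.sum_mul]
  exact mul_le_mul_of_nonneg_right (hy g) hp

theorem closure_sum_le {H : Type} [NormedAddCommGroup H] [InnerProductSpace ℂ H]
    (S : Set (H →L[ℂ] H)) (k : ℕ) (v : Fin k → H) (s C : ℝ) (hs : |s| ≤ 1)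
    (hS : ∀ T ∈ S, ∑ i, s * (⟪v i, T (v i)⟫_ℂ).re ≤ C) (z : H →L[ℂ] H)
    (hz : ∀ (n : ℕ) (ξ η : Fin n → H) (ε : ℝ), 0 < ε →
        ∃ T ∈ convexHull ℝ S, ∀ i : Fin n, ‖⟪η i, (T - z) (ξ i)⟫_ℂ‖ < ε) :
    ∑ i, s * (⟪v i, z (v i)⟫_ℂ).re ≤ C := by
  let Φ : (H →L[ℂ] H) → ℝ := fun T => ∑ i, s * (⟪v i, T (v i)⟫_ℂ).re
  have hlin : IsLinearMap ℝ Φ := by
    constructor
    · intro S T
      simp only [Φ, add_apply, inner_add_right, Complex.add_re, mul_add,
        Finset.sum_add_distrib]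
    · intro a T
      simp only [Φ, smul_eq_mul, Finset.mul_sum]
      refine Finset.sum_congr rfl (fun i _ => ?_)
      have h1 : (a • T) (v i) = (a : ℂ) • T (v i) := rfl
      rw [h1, inner_smul_right]
      simp only [Complex.re_ofReal_mul]
      ring
  refine le_of_forall_pos_le_add (fun ε hε => ?_)
  have hk : (0 : ℝ) < (k : ℝ) + 1 := by positivity
  obtain ⟨T, hT, hTz⟩ := hz k v v (ε / ((k : ℝ) + 1)) (by positivity)
  have hle : Φ T ≤ C :=
    convexHull_min (t := {T | Φ T ≤ C}) hS (convex_halfSpace_le hlin C) hT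
  have hd : ∀ i : Fin k, s * (⟪v i, z (v i)⟫_ℂ).re ≤
      s * (⟪v i, T (v i)⟫_ℂ).re + ε / ((k : ℝ) + 1) := by
    intro i
    have h1 := (Complex.abs_re_le_norm _).trans (hTz i).le
    rw [sub_apply, inner_sub_right, Complex.sub_re] at h1
    have h2 : |s * ((⟪v i, T (v i)⟫_ℂ).re - (⟪v i, z (v i)⟫_ℂ).re)| ≤ ε / ((k : ℝ) + 1) := by
      rw [abs_mul]
      exact (mul_le_of_le_one_left (abs_nonneg _) hs).trans h1
    have h3 := (abs_le.1 h2).1
    linarith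
  refine (Finset.sum_le_sum (fun i _ => hd i)).trans ?_
  rw [Finset.sum_add_distrib]
  have h4 : ∑ _i : Fin k, ε / ((k : ℝ) + 1) ≤ ε := by
    rw [Finset.sum_const, Finset.card_univ, Fintype.card_fin, nsmul_eq_mul, mul_div_assoc',
      div_le_iff₀ hk]
    nlinarith
  exact add_le_add hle h4

/-- Maximal failure: the whole weak closure stays at distance one half from the scalars. -/
theorem far_from_scalars (f : G → ℝ) (hf : ∀ g, |f g| ≤ 1) (α β : G)
    (hα : ∀ (k : ℕ) (g : G), ∑ i : Fin k, (-1) * f (α ^ (i : ℕ) * g) ≤ 1 - k)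
    (hβ : ∀ (k : ℕ) (g : G), ∑ i : Fin k, 1 * f (β ^ (i : ℕ) * g) ≤ 1)
    (z : L2 G →L[ℂ] L2 G)
    (hz : ∀ (n : ℕ) (ξ η : Fin n → L2 G) (ε : ℝ), 0 < ε →
        ∃ T ∈ convexHull ℝ {T : L2 G →L[ℂ] L2 G | ∃ u ∈ unitary (L2 G →L[ℂ] L2 G),
            u ∈ alg (Set.univ : Set G) ∧ T = u * mul f hf * star u},
          ∀ i : Fin n, ‖⟪η i, (T - z) (ξ i)⟫_ℂ‖ < ε) (c : ℂ) :
    1 / 2 ≤ ‖z - c • (1 : L2 G →L[ℂ] L2 G)‖ := by
  set r := ‖z - c • (1 : L2 G →L[ℂ] L2 G)‖ with hr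
  have hd : ∀ y : G, |(⟪delta y, z (delta y)⟫_ℂ).re - c.re| ≤ r := by
    intro y
    have h1 : ‖⟪delta y, (z - c • (1 : L2 G →L[ℂ] L2 G)) (delta y)⟫_ℂ‖ ≤ r := by
      refine (norm_inner_le_norm _ _).trans ?_
      have := (z - c • (1 : L2 G →L[ℂ] L2 G)).le_opNorm (delta y)
      rw [norm_delta] at this ⊢
      linarith
    refine le_trans (le_of_eq ?_) ((Complex.abs_re_le_norm _).trans h1)
    congr 1
    rw [sub_apply, inner_sub_right, Complex.sub_re,
      smul_apply, one_apply_eq_self, inner_smul_right,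
      inner_self_eq_norm_sq_to_K, norm_delta]
    simp
  have key : ∀ k : ℕ, (k : ℝ) * (1 - 2 * r) ≤ 2 := by
    intro k
    have h1 := closure_sum_le _ k (fun i => delta (α ^ (i : ℕ))) (-1) (1 - k) (by simp) (by
      rintro _ ⟨u, hu, huN, rfl⟩
      exact diag_sum_le f hf k _ (-1) _ (hα k) u hu huN) z hz
    have h2 := closure_sum_le _ k (fun i => delta (β ^ (i : ℕ))) 1 1 (by simp) (by
      rintro _ ⟨u, hu, huN, rfl⟩
      exact diag_sum_le f hf k _ 1 _ (hβ k) u hu huN) z hz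
    have h3 : ∑ _i : Fin k, -(c.re + r) ≤
        ∑ i : Fin k, (-1) * (⟪delta (α ^ (i : ℕ)), z (delta (α ^ (i : ℕ)))⟫_ℂ).re :=
      Finset.sum_le_sum (fun i _ => by linarith [(abs_le.1 (hd (α ^ (i : ℕ)))).2])
    have h4 : ∑ _i : Fin k, (c.re - r) ≤
        ∑ i : Fin k, 1 * (⟪delta (β ^ (i : ℕ)), z (delta (β ^ (i : ℕ)))⟫_ℂ).re :=
      Finset.sum_le_sum (fun i _ => by linarith [(abs_le.1 (hd (β ^ (i : ℕ)))).1])
    rw [Finset.sum_const, Finset.card_univ, Fintype.card_fin, nsmul_eq_mul] at h3 h4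
    nlinarith
  by_contra hlt
  have hpos : 0 < 1 - 2 * r := by linarith [not_le.1 hlt]
  obtain ⟨k, hk⟩ := exists_nat_gt (2 / (1 - 2 * r))
  rw [div_lt_iff₀ hpos] at hk
  linarith [key k]

end Pool.Agent.P.MP_7e3bdd_an
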