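import Mathlib

/-!
Combinatorics of the free group on countably many generators used in the counterexample.
-/

set_option autoImplicit false

noncomputable section

namespace Pool.Agent.P.MP_7e3bdd_an

open FreeGroup

/-- The free group on countably many generators. -/
abbrev FG : Type := FreeGroup ℕ

/-- The generators with index at least two. -/
def highGens : Set FG := {k | ∃ n : ℕ, 2 ≤ n ∧ k = FreeGroup.of n}

/-- The retraction killing the generators with index at least two. -/
def proj : FG →* FG := FreeGroup.lift (fun n : ℕ => if n < 2 then FreeGroup.of n else 1)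

open Classical in
/-- Indicator of the words starting with the first generator. -/
def ind (w : FG) : ℝ := if w ∈ startsWith ((0 : ℕ), true) then 1 else 0

/-- The multiplier: the indicator pulled back along the retraction. -/
def mult (g : FG) : ℝ := ind (proj g)

theorem ind_nonneg (w : FG) : 0 ≤ ind w := by
  unfold ind; split_ifs <;> norm_num

theorem ind_le_one (w : FG) : ind w ≤ 1 := by
  unfold ind; split_ifs <;> norm_num

theorem abs_mult_le (g : FG) : |mult g| ≤ 1 := by
  rw [mult, abs_of_nonneg (ind_nonneg _)]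
  exact ind_le_one _

theorem mult_inv (k : FG) (hk : k ∈ highGens) (g : FG) : mult (k * g) = mult g := by
  obtain ⟨n, hn, rfl⟩ := hk
  have : proj (FreeGroup.of n) = 1 := by
    rw [proj, FreeGroup.lift_apply_of, if_neg (not_lt.2 hn)]
  simp [mult, this]

theorem not_mem_of_mem {w w' : ℕ × Bool} (h : w ≠ w') {g : FG} (hg : g ∈ startsWith w) :
    g ∉ startsWith w' :=
  (startsWith.disjoint_iff_ne.2 h).notMem_of_mem_left hg

theorem of_eq_mk (n : ℕ) : (FreeGroup.of n : FG) = FreeGroup.mk [(n, true)] := rfl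

theorem of_inv_eq_mk (n : ℕ) : (FreeGroup.of n : FG)⁻¹ = FreeGroup.mk [(n, false)] := rfl

theorem ind_mul_eq_one (v : FG) (hv : v ∉ startsWith ((0 : ℕ), false)) :
    ind (FreeGroup.of 0 * v) = 1 := by
  have := startsWith_mk_mul (w := ((0 : ℕ), true)) v (by simpa using hv)
  rw [ind, of_eq_mk, if_pos this]

theorem ind_inv_mul_eq_zero (v : FG) (hv : v ∉ startsWith ((0 : ℕ), true)) :
    ind ((FreeGroup.of 0)⁻¹ * v) = 0 := by
  have := startsWith_mk_mul (w := ((0 : ℕ), false)) v (by simpa using hv)
  rw [ind, of_inv_eq_mk, if_neg (not_mem_of_mem (by simp) this)]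

theorem ind_diff_nonneg (v : FG) :
    ind ((FreeGroup.of 0)⁻¹ * v) ≤ ind (FreeGroup.of 0 * v) := by
  by_cases hv : v ∈ startsWith ((0 : ℕ), false)
  · rw [ind_inv_mul_eq_zero v (not_mem_of_mem (by simp) hv)]
    exact ind_nonneg _
  · rw [ind_mul_eq_one v hv]
    exact ind_le_one _

/-- The four test elements. -/
def tests : Fin 4 → FG :=
  ![FreeGroup.of 0, FreeGroup.of 0 * FreeGroup.of 1, (FreeGroup.of 0)⁻¹,
    (FreeGroup.of 0)⁻¹ * FreeGroup.of 1]

theorem mult_ineq (g : FG) :
    1 ≤ mult (tests 0 * g) + mult (tests 1 * g) - mult (tests 2 * g) - mult (tests 3 * g) := by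
  have p0 : proj (FreeGroup.of 0) = FreeGroup.of 0 := by simp [proj]
  have p1 : proj (FreeGroup.of 1) = FreeGroup.of 1 := by simp [proj]
  have e0 : mult (tests 0 * g) = ind (FreeGroup.of 0 * proj g) := by
    simp [mult, tests, p0]
  have e1 : mult (tests 1 * g) = ind (FreeGroup.of 0 * (FreeGroup.of 1 * proj g)) := by
    simp [mult, tests, p0, p1, mul_assoc]
  have e2 : mult (tests 2 * g) = ind ((FreeGroup.of 0)⁻¹ * proj g) := by
    simp [mult, tests, p0]
  have e3 : mult (tests 3 * g) = ind ((FreeGroup.of 0)⁻¹ * (FreeGroup.of 1 * proj g)) := by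
    simp [mult, tests, p0, p1, mul_assoc]
  rw [e0, e1, e2, e3]
  set w := proj g
  by_cases hw : w ∈ startsWith ((1 : ℕ), false)
  · have a1 := ind_mul_eq_one w (not_mem_of_mem (by simp) hw)
    have a2 := ind_inv_mul_eq_zero w (not_mem_of_mem (by simp) hw)
    have a3 := ind_diff_nonneg (FreeGroup.of 1 * w)
    linarith
  · have hb : FreeGroup.of 1 * w ∈ startsWith ((1 : ℕ), true) :=
      startsWith_mk_mul (w := ((1 : ℕ), true)) w (by simpa using hw)
    have a1 := ind_mul_eq_one _ (not_mem_of_mem (by simp) hb)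
    have a2 := ind_inv_mul_eq_zero _ (not_mem_of_mem (by simp) hb)
    have a3 := ind_diff_nonneg w
    linarith

theorem conj_mem_startsWith (g : FG) (hg : g ≠ 1) (n : ℕ)
    (hn : ∀ x ∈ g.toWord, x.1 ≠ n) :
    FreeGroup.of n * g * (FreeGroup.of n)⁻¹ ∈ startsWith (n, true) := by
  rw [mul_assoc]
  refine startsWith_mk_mul (w := (n, true)) _ ?_
  have hred : FreeGroup.IsReduced (g.toWord ++ [(n, false)]) := by
    have h1 : FreeGroup.IsReduced g.toWord := isReduced_toWord
    unfold FreeGroup.IsReduced at h1 ⊢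
    rw [List.isChain_append]
    refine ⟨h1, List.isChain_singleton _, ?_⟩
    intro x hx y hy hxy
    have hx' : x ∈ g.toWord := List.mem_of_mem_getLast? hx
    have hy' : y = (n, false) := by simpa [eq_comm] using hy
    exact absurd (by simpa [hy'] using hxy) (hn x hx')
  have hw : (g * (FreeGroup.of n)⁻¹).toWord = g.toWord ++ [(n, false)] := by
    rw [toWord_mul, of_inv_eq_mk, toWord_mk, reduce_singleton, hred.reduce_eq]
  have hne : g.toWord ≠ [] := fun h => hg (toWord_eq_nil_iff.1 h)
  intro hmem
  simp only [startsWith, Set.mem_ofPred_eq, hw] at hmem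
  obtain ⟨x, l, hx⟩ := List.exists_cons_of_ne_nil hne
  have hx1 : x = (n, false) := by simpa [hx] using hmem
  exact hn x (by simp [hx]) (by simp [hx1])

theorem conj_infinite (g : FG) (hg : g ≠ 1) :
    Set.Infinite ((fun k => k * g * k⁻¹) '' highGens) := by
  obtain ⟨B, hB⟩ : ∃ B : ℕ, ∀ x ∈ g.toWord, x.1 < B := by
    refine ⟨(g.toWord.map Prod.fst).sum + 1, fun x hx => Nat.lt_succ_of_le ?_⟩
    exact List.le_sum_of_mem (List.mem_map_of_mem hx)
  have key : ∀ m : ℕ, FreeGroup.of (m + B + 2) * g * (FreeGroup.of (m + B + 2))⁻¹ ∈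
      startsWith (m + B + 2, true) := fun m =>
    conj_mem_startsWith g hg _ (fun x hx => by have := hB x hx; omega)
  refine Set.infinite_of_injective_forall_mem
    (f := fun m : ℕ => FreeGroup.of (m + B + 2) * g * (FreeGroup.of (m + B + 2))⁻¹) ?_ ?_
  · intro m m' h
    by_contra hne
    have h1 := key m
    have h2 := key m'
    simp only at h
    rw [h] at h1
    exact not_mem_of_mem (by simpa using hne) h1 h2
  · intro m
    exact ⟨FreeGroup.of (m + B + 2), ⟨m + B + 2, by omega, rfl⟩, rfl⟩

end Pool.Agent.P.MP_7e3bdd_an
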