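import Pool.Agent.P.MP_7e3bdd_an.Basic
import Pool.Agent.P.MP_7e3bdd_an.Free

set_option autoImplicit false
open scoped InnerProductSpace

namespace Pool.Agent.P.MP_7e3bdd_an

/-- Not a hand-in (withdrawn as probably published): an irreducible inclusion of factors on a
separable Hilbert space without the weak relative Dixmier property. -/
theorem known_counterexample :
    ¬ (∀ (H : Type) [NormedAddCommGroup H] [InnerProductSpace ℂ H] [CompleteSpace H]
      [TopologicalSpace.SeparableSpace H] (N M : VonNeumannAlgebra H),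
      (∀ a ∈ N, a ∈ M) →
      (∀ z ∈ M, (∀ y ∈ M, z * y = y * z) → ∃ c : ℂ, z = c • (1 : H →L[ℂ] H)) →
      (∀ z ∈ N, (∀ y ∈ N, z * y = y * z) → ∃ c : ℂ, z = c • (1 : H →L[ℂ] H)) →
      (∀ z ∈ M, (∀ y ∈ N, z * y = y * z) → ∃ c : ℂ, z = c • (1 : H →L[ℂ] H)) →
      ∀ x ∈ M, ∃ c : ℂ, ∀ (n : ℕ) (ξ η : Fin n → H) (ε : ℝ), 0 < ε →
        ∃ y ∈ convexHull ℝ
            {T : H →L[ℂ] H | ∃ u ∈ unitary (H →L[ℂ] H), u ∈ N ∧ T = u * x * star u},
          ∀ i : Fin n, ‖⟪η i, (y - c • (1 : H →L[ℂ] H)) (ξ i)⟫_ℂ‖ < ε) := by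
  intro h
  classical
  have hirr := irreducible highGens conj_infinite
  have hle := alg_univ_le highGens
  refine no_scalar _ (fun i => delta (tests i)) (fun i => norm_delta _) ?_
    (h (L2 FG) (alg Set.univ) (alg highGens) hle
      (fun z hz hc => hirr z hz (fun y hy => hc y (hle y hy)))
      (fun z hz hc => hirr z (hle z hz) hc) hirr
      (mul mult abs_mult_le) (mul_mem_alg highGens mult abs_mult_le mult_inv))
  rintro _ ⟨u, hu, huN, rfl⟩
  exact diag_ineq mult abs_mult_le tests mult_ineq u hu huN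

end Pool.Agent.P.MP_7e3bdd_an
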