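import Pool.Agent.P.MP_7e3bdd_an.WConv

/-! If finite sets cannot escape an invariant graph of bounded degree, then some such graph looks,
around most of finitely many base points, exactly the same after every translation. -/

set_option autoImplicit false

open Set Filter Topology

namespace Pool.Agent.P.MP_7e3bdd_an.W

variable {G : Type} [Group G]

/-- the compact convex set of kernels -/
def Ker (H : Subgroup G) (M : ℝ) (F₀ : Finset G) (r : ℝ) : Set (G → G → ℝ) :=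
  {F | (∀ a b, 0 ≤ F a b) ∧ (∀ a b, F a b ≤ 1) ∧ (∀ a b, F a b = F b a) ∧ (∀ a, F a a = 0) ∧
    (∀ h ∈ H, ∀ a b, F (h * a) (h * b) = F a b) ∧ (∀ a (s : Finset G), ∑ b ∈ s, F a b ≤ M) ∧
    (∀ g, 1 ≤ ∑ a ∈ F₀, ∑ b ∈ F₀, F (a * g) (b * g)) ∧
    ∀ a (s : Finset G), ∑ b ∈ s, F a b ^ 2 ≤ r}

variable {H : Subgroup G} {M r : ℝ} {F₀ : Finset G}

theorem ker_closed : IsClosed (Ker H M F₀ r) := by
  simp only [Ker, ofPred_forall, ofPred_and]
  refine IsClosed.inter ?_ (IsClosed.inter ?_ (IsClosed.inter ?_ (IsClosed.inter ?_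
    (IsClosed.inter ?_ (IsClosed.inter ?_ (IsClosed.inter ?_ ?_))))))
  all_goals
    repeat' apply isClosed_iInter; intro
    first
      | exact isClosed_le (by fun_prop) (by fun_prop)
      | exact isClosed_eq (by fun_prop) (by fun_prop)

theorem ker_compact : IsCompact (Ker H M F₀ r) :=
  (isCompact_univ_pi fun _ : G => isCompact_univ_pi fun _ : G =>
    isCompact_Icc (a := (0 : ℝ)) (b := 1)).of_isClosed_subset ker_closed
    fun _ hF a _ b _ => ⟨hF.1 a b, hF.2.1 a b⟩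

theorem ker_convex : Convex ℝ (Ker H M F₀ r) := by
  rintro f ⟨f1, f2, f3, f4, f5, f6, f7, f8⟩ g ⟨g1, g2, g3, g4, g5, g6, g7, g8⟩ s t hs ht hst
  refine ⟨fun a b => ?_, fun a b => ?_, fun a b => ?_, fun a => ?_, fun h hh a b => ?_,
    fun a u => ?_, fun x => ?_, fun a u => ?_⟩ <;>
    simp only [Pi.add_apply, Pi.smul_apply, smul_eq_mul]
  · have := f1 a b; have := g1 a b; positivity
  · nlinarith [f2 a b, g2 a b]
  · rw [f3, g3]
  · simp [f4, g4]
  · rw [f5 h hh, g5 h hh]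
  · rw [Finset.sum_add_distrib, ← Finset.mul_sum, ← Finset.mul_sum]
    have := mul_le_mul_of_nonneg_left (f6 a u) hs
    have := mul_le_mul_of_nonneg_left (g6 a u) ht
    have : s * M + t * M = M := by rw [← add_mul, hst, one_mul]
    linarith
  · simp only [Finset.sum_add_distrib, ← Finset.mul_sum]
    nlinarith [f7 x, g7 x]
  · have e : ∑ b ∈ u, (s * f a b + t * g a b) ^ 2 ≤ ∑ b ∈ u, (s * f a b ^ 2 + t * g a b ^ 2) :=
      Finset.sum_le_sum fun b _ => by
        have : t = 1 - s := by linarith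
        subst this
        nlinarith [mul_nonneg (mul_nonneg hs ht) (sq_nonneg (f a b - g a b))]
    rw [Finset.sum_add_distrib, ← Finset.mul_sum, ← Finset.mul_sum] at e
    have := mul_le_mul_of_nonneg_left (f8 a u) hs
    have := mul_le_mul_of_nonneg_left (g8 a u) ht
    have : s * r + t * r = r := by rw [← add_mul, hst, one_mul]
    linarith

theorem ker_shift {F : G → G → ℝ} (hF : F ∈ Ker H M F₀ r) (g : G) :
    (fun a b => F (a * g) (b * g)) ∈ Ker H M F₀ r := by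
  classical
  obtain ⟨f1, f2, f3, f4, f5, f6, f7, f8⟩ := hF
  have e : ∀ (φ : G → ℝ) (s : Finset G), ∑ b ∈ s, φ (b * g) = ∑ b ∈ s.image (· * g), φ b :=
    fun φ s => (Finset.sum_image fun x _ y _ h => mul_right_cancel h).symm
  refine ⟨fun a b => f1 _ _, fun a b => f2 _ _, fun a b => f3 _ _, fun a => f4 _,
    fun h hh a b => ?_, fun a s => ?_, fun x => ?_, fun a s => ?_⟩
  · simp only [mul_assoc, f5 h hh]
  · rw [e (F (a * g))]; exact f6 _ _
  · simpa only [mul_assoc] using f7 (x * g)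
  · rw [e fun b => F (a * g) b ^ 2]; exact f8 _ _

theorem ker_min (hne : (Ker H M F₀ r).Nonempty) : ∃ c : ℝ, 0 < c ∧ (Ker H M F₀ c).Nonempty ∧
    ∀ F ∈ Ker H M F₀ c, ∀ r' < c, ∃ (a : G) (s : Finset G), r' < ∑ b ∈ s, F a b ^ 2 := by
  set T : Set ℝ := {r | (Ker H M F₀ r).Nonempty} with hT
  have hT0 : BddBelow T := ⟨0, fun r ⟨F, hF⟩ => by simpa using hF.2.2.2.2.2.2.2 1 ∅⟩
  have mono : ∀ r r' : ℝ, r ≤ r' → Ker H M F₀ r ⊆ Ker H M F₀ r' :=
    fun r r' h F ⟨f1, f2, f3, f4, f5, f6, f7, f8⟩ =>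
      ⟨f1, f2, f3, f4, f5, f6, f7, fun a s => (f8 a s).trans h⟩
  obtain ⟨F, hF⟩ := IsCompact.nonempty_iInter_of_directed_nonempty_isCompact_isClosed
    (fun n : ℕ => Ker H M F₀ (sInf T + 1 / ((n : ℝ) + 1)))
    (directed_of_isDirected_le fun i j hij => mono _ _ (by
      have : (i : ℝ) ≤ j := by exact_mod_cast hij
      gcongr))
    (fun n => by
      obtain ⟨r', hr', hlt⟩ := exists_lt_of_csInf_lt ⟨r, hne⟩
        (lt_add_of_pos_right (sInf T) (by positivity : (0 : ℝ) < 1 / ((n : ℝ) + 1)))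
      exact hr'.mono (mono _ _ hlt.le))
    (fun _ => ker_compact) fun _ => ker_closed
  have hF' : F ∈ Ker H M F₀ (sInf T) := by
    obtain ⟨f1, f2, f3, f4, f5, f6, f7, -⟩ := mem_iInter.1 hF 0
    refine ⟨f1, f2, f3, f4, f5, f6, f7, fun a s => ?_⟩
    have h0 : Tendsto (fun n : ℕ => sInf T + 1 / ((n : ℝ) + 1)) atTop (𝓝 (sInf T)) := by
      simpa using tendsto_one_div_add_atTop_nhds_zero_nat.const_add (sInf T)
    exact ge_of_tendsto' h0 fun n => (mem_iInter.1 hF n).2.2.2.2.2.2.2 a s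
  refine ⟨sInf T, ?_, ⟨F, hF'⟩, fun F hF r' hr' => ?_⟩
  · by_contra hc
    have hz : ∀ a b, F a b = 0 := fun a b => by
      have := hF'.2.2.2.2.2.2.2 a {b}
      rw [Finset.sum_singleton] at this
      exact pow_eq_zero_iff two_ne_zero |>.1 (le_antisymm (this.trans (not_lt.1 hc)) (sq_nonneg _))
    have := hF'.2.2.2.2.2.2.1 1
    simp [hz] at this
    linarith
  · by_contra hc
    push Not at hc
    obtain ⟨f1, f2, f3, f4, f5, f6, f7, -⟩ := hF
    exact absurd (csInf_le hT0 ⟨F, f1, f2, f3, f4, f5, f6, f7, hc⟩) (not_le.2 hr')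

theorem ker_cover {c ε : ℝ} (hc : 0 < c) (hε : 0 < ε) (hne : (Ker H M F₀ c).Nonempty)
    (hmin : ∀ F ∈ Ker H M F₀ c, ∀ r' < c, ∃ (a : G) (s : Finset G), r' < ∑ b ∈ s, F a b ^ 2) :
    ∃ (ι : Type) (_ : Fintype ι) (ν : ι → ℝ) (a : ι → G) (s : ι → Finset G) (η : ι → G → G → ℝ),
      (∀ i, 0 ≤ ν i) ∧ ∑ i, ν i = 1 ∧ (∀ i, η i ∈ Ker H M F₀ c) ∧
      (∀ i, c * (1 - ε) < ∑ b ∈ s i, η i (a i) b ^ 2) ∧
      ∀ F ∈ Ker H M F₀ c, c * (1 - ε) ≤ ∑ i, ν i * ∑ b ∈ s i, F (a i) b * η i (a i) b := by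
  classical
  have h' : ∀ F : G → G → ℝ, ∃ (a : G) (s : Finset G), F ∈ Ker H M F₀ c →
      c * (1 - ε) < ∑ b ∈ s, F a b ^ 2 := by
    intro F
    by_cases hF : F ∈ Ker H M F₀ c
    · obtain ⟨a, s, h⟩ := hmin F hF (c * (1 - ε)) (by nlinarith)
      exact ⟨a, s, fun _ => h⟩
    · exact ⟨1, ∅, fun h => absurd h hF⟩
  choose a s h using h'
  obtain ⟨t, ht, hcov⟩ := (ker_compact (H := H) (M := M) (F₀ := F₀) (r := c)).elim_nhds_subcover
    (fun F => {F' | c * (1 - ε) < ∑ b ∈ s F, F' (a F) b * F (a F) b}) fun F hF =>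
      (isOpen_lt continuous_const (by fun_prop)).mem_nhds (by
        simpa only [mem_ofPred_eq, sq] using h F hF)
  have : Nonempty t := by
    obtain ⟨F, hF⟩ := hne
    obtain ⟨x, hx, -⟩ := mem_iUnion₂.1 (hcov hF)
    exact ⟨⟨x, hx⟩⟩
  obtain ⟨ν, n0, n1, n2⟩ := sep
    ((fun F' (i : t) => ∑ b ∈ s i, F' (a i) b * (i : G → G → ℝ) (a i) b) '' Ker H M F₀ c) (by
      rintro _ ⟨f, hf, rfl⟩ _ ⟨g, hg, rfl⟩ p q hp hq hpq
      refine ⟨p • f + q • g, ker_convex hf hg hp hq hpq, funext fun x => ?_⟩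
      simp only [Pi.add_apply, Pi.smul_apply, smul_eq_mul, Finset.mul_sum,
        ← Finset.sum_add_distrib]
      exact Finset.sum_congr rfl fun b _ => by ring) (c * (1 - ε)) (by
      rintro _ ⟨F, hF, rfl⟩
      obtain ⟨x, hx, hx'⟩ := mem_iUnion₂.1 (hcov hF)
      exact ⟨⟨x, hx⟩, le_of_lt hx'⟩)
  exact ⟨t, inferInstance, ν, fun i => a i, fun i => s i, fun i => i, n0, n1,
    fun i => ht _ i.2, fun i => h _ (ht _ i.2), fun F hF => n2 _ ⟨F, hF, rfl⟩⟩

omit [Group G] in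
theorem card_le_of_row {φ : G → ℝ} {θ : ℝ} (hθ : 0 < θ) (hM : ∀ s : Finset G, ∑ b ∈ s, φ b ≤ M)
    (s : Finset G) (hs : ∀ b ∈ s, θ ≤ φ b) : (s.card : ℝ) ≤ M / θ := by
  rw [le_div_iff₀ hθ, ← nsmul_eq_mul, ← Finset.sum_const]
  exact (Finset.sum_le_sum hs).trans (hM s)

omit [Group G] in
theorem finite_of_row {φ : G → ℝ} {θ : ℝ} (hθ : 0 < θ) (hM : ∀ s : Finset G, ∑ b ∈ s, φ b ≤ M) :
    {b | θ < φ b}.Finite := by
  by_contra hinf
  obtain ⟨s, hs, hcard⟩ := Set.Infinite.exists_subset_card_eq hinf (⌈M / θ⌉₊ + 1)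
  have := card_le_of_row hθ hM s fun b hb => le_of_lt (hs hb)
  rw [hcard] at this
  push_cast at this
  linarith [Nat.le_ceil (M / θ)]

omit [Group G] in
open Classical in
theorem exists_threshold {ι : Type} [Fintype ι] (ν : ι → ℝ) (n0 : ∀ i, 0 ≤ ν i)
    (n1 : ∑ i, ν i = 1) (φ : ι → G → ℝ) (hM : ∀ i (s : Finset G), ∑ b ∈ s, φ i b ≤ M)
    {θ₀ κ : ℝ} (hθ : 0 < θ₀) (hκ : 0 < κ) {J : ℕ} (hJ : 0 < J) :
    ∃ j < J, ∑ i, ν i * (if ∃ b, |φ i b - (θ₀ + 3 * κ * (j + 1))| ≤ κ then 1 else 0) ≤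
      M / θ₀ / J := by
  have cnt : ∀ i, ∑ j ∈ Finset.range J,
      (if ∃ b, |φ i b - (θ₀ + 3 * κ * (j + 1))| ≤ κ then (1 : ℝ) else 0) ≤ M / θ₀ := by
    intro i
    rw [Finset.sum_boole]
    set B := (Finset.range J).filter fun j : ℕ => ∃ b, |φ i b - (θ₀ + 3 * κ * (j + 1))| ≤ κ
      with hB
    rcases B.eq_empty_or_nonempty with h0 | ⟨j₀, hj₀⟩
    · rw [h0]
      simpa using div_nonneg (by simpa using hM i ∅) hθ.le
    obtain ⟨b₀, -⟩ := (Finset.mem_filter.1 hj₀).2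
    have h2 : ∀ j : ℕ, ∃ b : G, j ∈ B → |φ i b - (θ₀ + 3 * κ * (j + 1))| ≤ κ := by
      intro j
      by_cases hj : j ∈ B
      · obtain ⟨b, hb⟩ := (Finset.mem_filter.1 hj).2
        exact ⟨b, fun _ => hb⟩
      · exact ⟨b₀, fun h => absurd h hj⟩
    choose β hβ using h2
    have inj : Set.InjOn β B := by
      intro j hj k hk e
      have a1 := abs_le.1 (hβ j hj)
      have a2 := abs_le.1 (hβ k hk)
      rw [e] at a1
      have l1 : (j : ℝ) < k + 1 := by nlinarith [a1.1, a1.2, a2.1, a2.2]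
      have l2 : (k : ℝ) < j + 1 := by nlinarith [a1.1, a1.2, a2.1, a2.2]
      have l1' : j < k + 1 := by exact_mod_cast l1
      have l2' : k < j + 1 := by exact_mod_cast l2
      omega
    rw [← Finset.card_image_of_injOn inj]
    refine card_le_of_row hθ (hM i) _ fun b hb => ?_
    obtain ⟨j, hj, rfl⟩ := Finset.mem_image.1 hb
    have a1 := abs_le.1 (hβ j hj)
    have : (0 : ℝ) ≤ κ * j := by positivity
    nlinarith [a1.1]
  obtain ⟨j, hj, h⟩ := Finset.exists_le_of_sum_le (s := Finset.range J)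
    (f := fun j : ℕ => ∑ i, ν i *
      (if ∃ b, |φ i b - (θ₀ + 3 * κ * (j + 1))| ≤ κ then (1 : ℝ) else 0))
    (g := fun _ => M / θ₀ / J) ⟨0, Finset.mem_range.2 hJ⟩ (by
      rw [Finset.sum_comm, Finset.sum_const, Finset.card_range, nsmul_eq_mul,
        mul_div_cancel₀ _ (by positivity : (J : ℝ) ≠ 0)]
      calc _ ≤ ∑ i, ν i * (M / θ₀) := Finset.sum_le_sum fun i _ => by
            rw [← Finset.mul_sum]; exact mul_le_mul_of_nonneg_left (cnt i) (n0 i)
        _ = _ := by rw [← Finset.sum_mul, n1, one_mul])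
  exact ⟨j, Finset.mem_range.1 hj, h⟩

open Classical in
/-- the consistent form of the failure of `Escapes` -/
def Cons (H : Subgroup G) (m : ℕ) (ε : ℝ) : Prop :=
  ∃ (ι : Type) (_ : Fintype ι) (ν : ι → ℝ) (a : ι → G) (S : ι → Finset G) (R : G → Finset G),
    (∀ i, 0 ≤ ν i) ∧ ∑ i, ν i = 1 ∧ (∀ i, (S i).Nonempty) ∧ (∀ i, a i ∉ S i) ∧
    (∀ i, (S i).card ≤ m) ∧ (∀ x, (R x).card ≤ m) ∧ (∀ x y, y ∈ R x ↔ x ∈ R y) ∧
    (∀ h ∈ H, ∀ x y, h * y ∈ R (h * x) ↔ y ∈ R x) ∧
    ∀ g, ∑ i, ν i * (if R (a i * g) = (S i).image (· * g) then 0 else 1) ≤ ε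

theorem cons_of_not_escapes (h : ¬ Escapes H) : ∃ m : ℕ, ∀ ε > 0, Cons H m ε := by
  classical
  unfold Escapes at h
  push Not at h
  obtain ⟨Γ, m, hdeg, hinv, F₀, hF₀⟩ := h
  have hrow : ∀ a (s : Finset G), ∑ b ∈ s, (if Γ.Adj a b then (1 : ℝ) else 0) ≤ m + 1 := by
    intro a s
    rw [Finset.sum_boole]
    have : ((s.filter (Γ.Adj a) : Finset G) : Set G).encard ≤ m :=
      (Set.encard_le_encard fun b hb => (Finset.mem_filter.1 hb).2).trans (hdeg a)
    rw [Set.encard_coe_eq_coe_finsetCard] at this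
    have : (s.filter (Γ.Adj a)).card ≤ m := by exact_mod_cast this
    have : ((s.filter (Γ.Adj a)).card : ℝ) ≤ m := by exact_mod_cast this
    linarith
  set M : ℝ := m + 1 with hM
  have hM0 : 0 < M := by positivity
  obtain ⟨c, hc, hne, hmin⟩ := ker_min (H := H) (M := M) (F₀ := F₀) (r := M)
    ⟨fun a b => if Γ.Adj a b then 1 else 0, fun a b => by beta_reduce; split_ifs <;> norm_num,
      fun a b => by beta_reduce; split_ifs <;> norm_num, fun a b => by simp only [Γ.adj_comm],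
      fun a => by simp, fun h hh a b => by
        have : Γ.Adj (h * a) (h * b) ↔ Γ.Adj a b :=
          ⟨fun x => by simpa using hinv h⁻¹ (inv_mem hh) _ _ x, hinv h hh a b⟩
        simp only [this], hrow, fun g => by
        obtain ⟨a, ha, b, hb, hab⟩ := hF₀ g
        refine le_trans ?_ (Finset.single_le_sum (f := fun a => ∑ b ∈ F₀,
          if Γ.Adj (a * g) (b * g) then (1 : ℝ) else 0)
          (fun a _ => Finset.sum_nonneg fun b _ => by split_ifs <;> norm_num) ha)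
        refine le_trans ?_ (Finset.single_le_sum (f := fun b =>
          if Γ.Adj (a * g) (b * g) then (1 : ℝ) else 0)
          (fun b _ => by split_ifs <;> norm_num) hb)
        rw [if_pos hab], fun a s => by simpa using hrow a s⟩
  set θ₀ : ℝ := c / (8 * M) with hθ₀
  have hθ : 0 < θ₀ := by positivity
  refine ⟨⌈M / θ₀⌉₊, fun ε₀ hε₀ => ?_⟩
  obtain ⟨J, hJ⟩ := exists_nat_gt (M / θ₀ / (ε₀ / 2))
  have hJ0 : (0 : ℝ) < J := lt_trans (by positivity) hJ
  set κ : ℝ := θ₀ / (3 * J) with hκ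
  have hκ0 : 0 < κ := by positivity
  set ε : ℝ := min (1 / 2) (ε₀ * κ ^ 2 / (4 * c)) with hε
  obtain ⟨ι, _, ν, a, s, η, n0, n1, hη, hbig, hcov⟩ :=
    ker_cover hc (lt_min one_half_pos (by positivity) : 0 < ε) hne hmin
  obtain ⟨F, hF⟩ := hne
  let φ : ι → G → ℝ := fun i b => if b ∈ s i then η i (a i) b else 0
  have φle : ∀ i b, φ i b ≤ η i (a i) b := fun i b => by
    simp only [φ]; split_ifs; exacts [le_rfl, (hη i).1 _ _]
  have φM : ∀ i (u : Finset G), ∑ b ∈ u, φ i b ≤ M := fun i u =>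
    (Finset.sum_le_sum fun b _ => φle i b).trans ((hη i).2.2.2.2.2.1 _ _)
  obtain ⟨j, hj, hbad⟩ := exists_threshold ν n0 n1 φ φM hθ hκ0 (J := J) (by exact_mod_cast hJ0)
  set θ : ℝ := θ₀ + 3 * κ * (j + 1) with hθdef
  have θ1 : θ₀ + κ ≤ θ := by
    have : (0 : ℝ) ≤ κ * j := by positivity
    nlinarith
  have θ2 : θ ≤ 2 * θ₀ := by
    have h1 : (j : ℝ) + 1 ≤ J := by exact_mod_cast hj
    have h2 : 3 * κ * J = θ₀ := by rw [hκ]; field_simp
    nlinarith
  have θ0 : 0 < θ := by linarith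
  have hfin : ∀ x, {y | θ < F x y}.Finite := fun x => finite_of_row θ0 (hF.2.2.2.2.2.1 x)
  have cardle : ∀ (ψ : G → ℝ) (u : Finset G), (∀ u : Finset G, ∑ b ∈ u, ψ b ≤ M) →
      (∀ b ∈ u, θ < ψ b) → u.card ≤ ⌈M / θ₀⌉₊ := fun ψ u h1 h2 => by
    have := (card_le_of_row hθ h1 u fun b hb => by linarith [h2 b hb]).trans (Nat.le_ceil _)
    exact_mod_cast this
  refine ⟨ι, inferInstance, ν, a, fun i => (s i).filter fun b => θ < η i (a i) b,
    fun x => (hfin x).toFinset, n0, n1, fun i => ?_, fun i hi => ?_, fun i => ?_, fun x => ?_,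
    fun x y => ?_, fun h hh x y => ?_, fun g => ?_⟩
  · by_contra hem
    rw [Finset.not_nonempty_iff_eq_empty, Finset.filter_eq_empty_iff] at hem
    have b1 : ∑ b ∈ s i, η i (a i) b ^ 2 ≤ ∑ b ∈ s i, 2 * θ₀ * η i (a i) b :=
      Finset.sum_le_sum fun b hb => by
        have := not_lt.1 (hem hb)
        nlinarith [(hη i).1 (a i) b]
    rw [← Finset.mul_sum] at b1
    have b2 := mul_le_mul_of_nonneg_left ((hη i).2.2.2.2.2.1 (a i) (s i))
      (by positivity : 0 ≤ 2 * θ₀)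
    have b3 : 2 * θ₀ * M = c / 4 := by rw [hθ₀]; field_simp; ring
    have b4 : ε ≤ 1 / 2 := min_le_left _ _
    nlinarith [hbig i]
  · have := (Finset.mem_filter.1 hi).2
    rw [(hη i).2.2.2.1] at this
    linarith
  · exact cardle _ _ ((hη i).2.2.2.2.2.1 (a i)) fun b hb => (Finset.mem_filter.1 hb).2
  · exact cardle _ _ (hF.2.2.2.2.2.1 x) fun b hb => by simpa using hb
  · simp only [Set.Finite.mem_toFinset, mem_ofPred_eq, hF.2.2.1 x y]
  · simp only [Set.Finite.mem_toFinset, mem_ofPred_eq, hF.2.2.2.2.1 h hh x y]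
  · have hg := ker_shift hF g
    set E : ι → ℝ := fun i => 2 * c - 2 * ∑ b ∈ s i, F (a i * g) (b * g) * η i (a i) b with hE
    have hEb : ∀ i b, (F (a i * g) (b * g) - φ i b) ^ 2 ≤ E i := by
      intro i b
      refine (Finset.single_le_sum (f := fun b => (F (a i * g) (b * g) - φ i b) ^ 2)
        (fun _ _ => sq_nonneg _) (Finset.mem_insert_self b (s i))).trans ?_
      have e1 := hg.2.2.2.2.2.2.2 (a i) (insert b (s i))
      have e2 : ∑ b ∈ insert b (s i), φ i b ^ 2 ≤ c :=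
        (Finset.sum_le_sum fun b _ => by
          simp only [φ]; split_ifs; exacts [le_rfl, by simpa using sq_nonneg _]).trans
          ((hη i).2.2.2.2.2.2.2 (a i) _)
      have e3 : ∑ b ∈ insert b (s i), F (a i * g) (b * g) * φ i b =
          ∑ b ∈ s i, F (a i * g) (b * g) * η i (a i) b := by
        rw [← Finset.sum_subset (Finset.subset_insert b (s i)) fun x _ hx => by simp [φ, hx]]
        exact Finset.sum_congr rfl fun x hx => by simp [φ, hx]
      have e4 : ∑ b ∈ insert b (s i), (F (a i * g) (b * g) - φ i b) ^ 2 =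
          ∑ b ∈ insert b (s i), F (a i * g) (b * g) ^ 2 + ∑ b ∈ insert b (s i), φ i b ^ 2 -
            2 * ∑ b ∈ insert b (s i), F (a i * g) (b * g) * φ i b := by
        rw [Finset.mul_sum, ← Finset.sum_add_distrib, ← Finset.sum_sub_distrib]
        exact Finset.sum_congr rfl fun x _ => by ring
      simp only [hE]
      linarith
    have hE1 : ∑ i, ν i * E i ≤ 2 * c * ε := by
      have := hcov _ hg
      have e : ∑ i, ν i * E i = 2 * c * ∑ i, ν i -
          2 * ∑ i, ν i * ∑ b ∈ s i, F (a i * g) (b * g) * η i (a i) b := by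
        rw [Finset.mul_sum, Finset.mul_sum, ← Finset.sum_sub_distrib]
        exact Finset.sum_congr rfl fun i _ => by simp only [hE]; ring
      rw [e, n1]
      linarith
    have pt : ∀ i, (if (hfin (a i * g)).toFinset =
        ((s i).filter fun b => θ < η i (a i) b).image (· * g) then (0 : ℝ) else 1) ≤
        (if ∃ b, |φ i b - θ| ≤ κ then 1 else 0) + E i / κ ^ 2 := by
      intro i
      have E0 : 0 ≤ E i / κ ^ 2 := div_nonneg ((sq_nonneg _).trans (hEb i 1)) (sq_nonneg _)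
      split_ifs with h1 h2 h2
      · linarith
      · linarith
      · linarith
      · rw [zero_add, le_div_iff₀ (by positivity), one_mul]
        by_contra hlt
        apply h1
        push Not at h2 hlt
        have close : ∀ b, |F (a i * g) (b * g) - φ i b| < κ := fun b =>
          abs_lt_of_sq_lt_sq ((hEb i b).trans_lt hlt) hκ0.le
        ext y
        obtain ⟨b, rfl⟩ : ∃ b, y = b * g := ⟨y * g⁻¹, by simp⟩
        simp only [Set.Finite.mem_toFinset, mem_ofPred_eq, Finset.mem_image, Finset.mem_filter,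
          mul_left_inj, exists_eq_right]
        have c1 := abs_lt.1 (close b)
        have c2 := lt_abs.1 (h2 b)
        by_cases hb : b ∈ s i
        · simp only [φ, if_pos hb] at c1 c2
          simp only [hb, true_and]
          constructor <;> intro h <;> rcases c2 with c2 | c2 <;> linarith [c1.1, c1.2]
        · simp only [φ, if_neg hb] at c1
          simp only [hb, false_and, iff_false, not_lt]
          linarith [c1.2]
    calc _ ≤ ∑ i, ν i * ((if ∃ b, |φ i b - θ| ≤ κ then 1 else 0) + E i / κ ^ 2) :=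
          Finset.sum_le_sum fun i _ => mul_le_mul_of_nonneg_left (pt i) (n0 i)
      _ = ∑ i, ν i * (if ∃ b, |φ i b - θ| ≤ κ then 1 else 0) + (∑ i, ν i * E i) / κ ^ 2 := by
          rw [Finset.sum_div, ← Finset.sum_add_distrib]
          exact Finset.sum_congr rfl fun i _ => by ring
      _ ≤ ε₀ / 2 + ε₀ / 2 := by
          refine add_le_add (hbad.trans ?_) ?_
          · rw [div_lt_iff₀ (by positivity)] at hJ
            rw [div_le_iff₀ hJ0]
            linarith
          · rw [div_le_iff₀ (by positivity)]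
            have : ε ≤ ε₀ * κ ^ 2 / (4 * c) := min_le_right _ _
            rw [le_div_iff₀ (by positivity)] at this
            linarith
      _ = ε₀ := by ring

end Pool.Agent.P.MP_7e3bdd_an.W
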