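import Pool.Agent.P.MP_7e3bdd_an.WDefs

/-! Convexity tools: separation from an orthant, fixed points of affine maps, averages. -/

set_option autoImplicit false

open Set Filter Topology

namespace Pool.Agent.P.MP_7e3bdd_an.W

theorem sep {ι : Type*} [Fintype ι] [Nonempty ι] (V : Set (ι → ℝ)) (hV : Convex ℝ V) (t : ℝ)
    (h : ∀ v ∈ V, ∃ i, t ≤ v i) :
    ∃ ν : ι → ℝ, (∀ i, 0 ≤ ν i) ∧ ∑ i, ν i = 1 ∧ ∀ v ∈ V, t ≤ ∑ i, ν i * v i := by
  classical
  rcases V.eq_empty_or_nonempty with rfl | ⟨v₀, hv₀⟩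
  · obtain ⟨i₀⟩ := ‹Nonempty ι›
    refine ⟨Pi.single i₀ 1, fun i => ?_, by simp, by simp⟩
    rw [Pi.single_apply]; split_ifs <;> norm_num
  have hs : Convex ℝ {y : ι → ℝ | ∀ i, y i < t} := by
    have : {y : ι → ℝ | ∀ i, y i < t} = Set.pi univ fun _ => Iio t := by ext y; simp
    rw [this]; exact convex_pi fun _ _ => convex_Iio t
  have ho : IsOpen {y : ι → ℝ | ∀ i, y i < t} := by
    have : {y : ι → ℝ | ∀ i, y i < t} = Set.pi univ fun _ => Iio t := by ext y; simp
    rw [this]; exact isOpen_set_pi finite_univ fun _ _ => isOpen_Iio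
  obtain ⟨f, u, h1, h2⟩ := geometric_hahn_banach_open hs ho hV (by
    rw [Set.disjoint_left]
    intro y hy hyV
    obtain ⟨i, hi⟩ := h y hyV
    exact absurd (hy i) (not_lt.2 hi))
  set w : ι → ℝ := fun i => f (Pi.single i 1) with hw
  have hf : ∀ y : ι → ℝ, f y = ∑ i, w i * y i := by
    intro y
    conv_lhs => rw [← Finset.univ_sum_single y, map_sum]
    refine Finset.sum_congr rfl fun i _ => ?_
    have : (Pi.single i (y i) : ι → ℝ) = y i • Pi.single i 1 := by
      rw [← Pi.single_smul]; simp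
    rw [this, map_smul, smul_eq_mul, mul_comm]
  have hw0 : ∀ i, 0 ≤ w i := by
    intro i
    by_contra hneg
    push Not at hneg
    set A := f (fun _ => t - 1) with hA
    set R := (|u| + |A|) / (-w i) with hR
    have hR0 : 0 ≤ R := div_nonneg (by positivity) (by linarith)
    have := h1 ((fun _ => t - 1) - R • Pi.single i 1) (by
      intro j
      simp only [Pi.sub_apply, Pi.smul_apply, smul_eq_mul, Pi.single_apply]
      split_ifs <;> linarith)
    rw [map_sub, map_smul, smul_eq_mul, ← hA] at this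
    have e : R * w i = -(|u| + |A|) := by
      rw [hR]; field_simp [hneg.ne]
    change A - R * w i < u at this
    rw [e] at this
    linarith [le_abs_self u, neg_abs_le A]
  have hS0 : 0 ≤ ∑ i, w i := Finset.sum_nonneg fun i _ => hw0 i
  have hc : ∀ s : ℝ, f (fun _ => s) = s * ∑ i, w i := by
    intro s; rw [hf, Finset.mul_sum]; exact Finset.sum_congr rfl fun i _ => mul_comm _ _
  have hS : 0 < ∑ i, w i := by
    refine hS0.lt_of_ne fun h0 => ?_
    have hz : ∀ i, w i = 0 := fun i =>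
      (Finset.sum_eq_zero_iff_of_nonneg fun i _ => hw0 i).1 h0.symm i (Finset.mem_univ i)
    have a1 := h1 (fun _ => t - 1) (fun _ => by linarith)
    have a2 := h2 v₀ hv₀
    rw [hf] at a1 a2
    simp only [hz, zero_mul, Finset.sum_const_zero] at a1 a2
    linarith
  have hu : t * ∑ i, w i ≤ u := by
    refine le_of_forall_pos_le_add fun δ hδ => ?_
    have := h1 (fun _ => t - δ / ∑ i, w i) (fun _ => by
      have : 0 < δ / ∑ i, w i := div_pos hδ hS
      linarith)
    rw [hc, sub_mul, div_mul_cancel₀ _ hS.ne'] at this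
    linarith
  refine ⟨fun i => w i / ∑ i, w i, fun i => div_nonneg (hw0 i) hS0, ?_, fun v hv => ?_⟩
  · rw [← Finset.sum_div, div_self hS.ne']
  · have := h2 v hv
    rw [hf] at this
    have e : ∑ i, w i / (∑ i, w i) * v i = (∑ i, w i * v i) / ∑ i, w i := by
      rw [Finset.sum_div]; exact Finset.sum_congr rfl fun i _ => by ring
    rw [e, le_div_iff₀ hS]
    linarith

variable {X : Type*}

theorem isCompact_of_bdd {K : Set (X → ℝ)} (hc : IsClosed K) (hb : ∀ f ∈ K, ∀ a, |f a| ≤ 1) :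
    IsCompact K :=
  (isCompact_univ_pi fun _ : X => isCompact_Icc (a := (-1 : ℝ)) (b := 1)).of_isClosed_subset hc
    fun f hf a _ => abs_le.1 (hb f hf a)

/-- a continuous affine self-map of a compact convex set of functions has a fixed point -/
theorem exists_fixed {K : Set (X → ℝ)} (hne : K.Nonempty) (hc : IsClosed K) (hv : Convex ℝ K)
    (hb : ∀ f ∈ K, ∀ a, |f a| ≤ 1) (P : (X → ℝ) → X → ℝ) (hP : ContinuousOn P K)
    (hm : MapsTo P K K)
    (ha : ∀ f ∈ K, ∀ g ∈ K, ∀ s t : ℝ, 0 ≤ s → 0 ≤ t → s + t = 1 →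
      P (s • f + t • g) = s • P f + t • P g) : ∃ f ∈ K, P f = f := by
  obtain ⟨f₀, hf₀⟩ := hne
  have hit : ∀ n, P^[n] f₀ ∈ K := fun n => hm.iterate n hf₀
  let F : ℕ → X → ℝ := fun n => Nat.rec f₀
    (fun n Fn => (((n : ℝ) + 1) / (n + 2)) • Fn + (1 / ((n : ℝ) + 2)) • P^[n + 1] f₀) n
  have hF : ∀ n, F (n + 1) =
      (((n : ℝ) + 1) / (n + 2)) • F n + (1 / ((n : ℝ) + 2)) • P^[n + 1] f₀ := fun n => rfl
  have key : ∀ n, F n ∈ K ∧ ∀ a, ((n : ℝ) + 1) * (P (F n) a - F n a) = P^[n + 1] f₀ a - f₀ a := by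
    intro n
    induction n with
    | zero => exact ⟨hf₀, fun a => by simp [F]⟩
    | succ n ih =>
      have p1 : (0 : ℝ) ≤ ((n : ℝ) + 1) / (n + 2) := by positivity
      have p2 : (0 : ℝ) ≤ 1 / ((n : ℝ) + 2) := by positivity
      have p3 : ((n : ℝ) + 1) / (n + 2) + 1 / ((n : ℝ) + 2) = 1 := by field_simp; ring
      refine ⟨hF n ▸ hv ih.1 (hit _) p1 p2 p3, fun a => ?_⟩
      rw [hF, ha _ ih.1 _ (hit _) _ _ p1 p2 p3, ← Function.iterate_succ_apply' P (n + 1)]
      have := ih.2 a
      simp only [Pi.add_apply, Pi.smul_apply, smul_eq_mul, Nat.succ_eq_add_one] at this ⊢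
      push_cast
      field_simp
      linear_combination ((n : ℝ) + 2) * this
  have hK := isCompact_of_bdd hc hb
  have hne := IsCompact.nonempty_iInter_of_directed_nonempty_isCompact_isClosed
    (fun n : ℕ => K ∩ {f | ∀ a, |P f a - f a| ≤ 2 / ((n : ℝ) + 1)}) ?_ ?_ ?_ ?_
  · obtain ⟨f, hf⟩ := hne
    simp only [mem_iInter, mem_inter_iff, mem_ofPred_eq] at hf
    refine ⟨f, (hf 0).1, funext fun a => ?_⟩
    have h0 : Tendsto (fun n : ℕ => 2 / ((n : ℝ) + 1)) atTop (𝓝 0) := by
      simpa [div_eq_mul_inv] using tendsto_one_div_add_atTop_nhds_zero_nat.const_mul (2 : ℝ)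
    have := ge_of_tendsto' h0 fun n => (hf n).2 a
    exact sub_eq_zero.1 (abs_nonpos_iff.1 this)
  · refine directed_of_isDirected_le fun i j hij f hf => ⟨hf.1, fun a => (hf.2 a).trans ?_⟩
    have : (i : ℝ) ≤ j := by exact_mod_cast hij
    gcongr
  · intro n
    refine ⟨F n, (key n).1, fun a => ?_⟩
    rw [le_div_iff₀ (by positivity), mul_comm]
    have e := (key n).2 a
    have b1 := abs_le.1 (hb _ (hit (n + 1)) a)
    have b2 := abs_le.1 (hb _ hf₀ a)
    have : |((n : ℝ) + 1) * (P (F n) a - F n a)| ≤ 2 := by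
      rw [e, abs_le]; constructor <;> linarith
    rwa [abs_mul, abs_of_pos (by positivity : (0 : ℝ) < n + 1)] at this
  all_goals
    intro n
    have hcl : IsClosed (K ∩ {f | ∀ a, |P f a - f a| ≤ 2 / ((n : ℝ) + 1)}) := by
      have h1 : IsClosed {g : X → ℝ | ∀ a, |g a| ≤ 2 / ((n : ℝ) + 1)} := by
        rw [ofPred_forall]
        exact isClosed_iInter fun a => isClosed_le (by fun_prop) continuous_const
      exact (hP.sub continuousOn_id).preimage_isClosed_of_isClosed hc h1
    first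
      | exact hK.of_isClosed_subset hcl inter_subset_left
      | exact hcl

/-- commuting continuous linear self-maps have a common fixed point -/
theorem exists_common_fixed {K : Set (X → ℝ)} (hne : K.Nonempty) (hc : IsClosed K)
    (hv : Convex ℝ K) (hb : ∀ f ∈ K, ∀ a, |f a| ≤ 1) {ι : Type*} (e : ι → X → X)
    (hm : ∀ i, ∀ f ∈ K, (fun a => f (e i a)) ∈ K) (hcom : ∀ i j a, e i (e j a) = e j (e i a)) :
    ∃ f ∈ K, ∀ i a, f (e i a) = f a := by
  classical
  have hcl : ∀ i, IsClosed {f : X → ℝ | ∀ a, f (e i a) = f a} := fun i => by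
    rw [ofPred_forall]
    exact isClosed_iInter fun a => isClosed_eq (by fun_prop) (by fun_prop)
  have hcv : ∀ i, Convex ℝ {f : X → ℝ | ∀ a, f (e i a) = f a} := fun i f hf g hg s t _ _ _ a => by
    simp only [Pi.add_apply, Pi.smul_apply, hf a, hg a]
  have key : ∀ u : Finset ι, (K ∩ ⋂ i ∈ u, {f : X → ℝ | ∀ a, f (e i a) = f a}).Nonempty := by
    intro u
    induction u using Finset.induction_on with
    | empty => simpa using hne
    | insert j u _ ih =>
      obtain ⟨f, hf, hfix⟩ := exists_fixed ih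
        (hc.inter (isClosed_biInter fun i _ => hcl i))
        (hv.inter (convex_iInter₂ fun i _ => hcv i)) (fun f hf => hb f hf.1)
        (fun f a => f (e j a)) (by fun_prop) (fun f hf => ⟨hm j f hf.1, by
          have := hf.2
          simp only [mem_iInter, mem_ofPred_eq] at this ⊢
          intro i hi a
          rw [hcom, this i hi]⟩) (fun _ _ _ _ _ _ _ _ _ => rfl)
      refine ⟨f, hf.1, ?_⟩
      have := hf.2
      simp only [mem_iInter, mem_ofPred_eq, Finset.mem_insert] at this ⊢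
      rintro i (rfl | hi) a
      · exact congrFun hfix a
      · exact this i hi a
  obtain ⟨f, hf, h⟩ := (isCompact_of_bdd hc hb).inter_iInter_nonempty _ hcl key
  exact ⟨f, hf, fun i => mem_iInter.1 h i⟩

variable {G : Type} [Group G]

theorem summable_avg {p : G → ℝ} (hp : ∀ g, 0 ≤ p g) (hs : Summable p) {f : G → ℝ}
    (hb : ∀ a, |f a| ≤ 1) (a : G) : Summable fun g => p g * f (a * g) :=
  Summable.of_norm_bounded hs fun g => by
    rw [norm_mul, Real.norm_eq_abs, abs_of_nonneg (hp g)]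
    exact mul_le_of_le_one_right (hp g) (hb _)

theorem avg_mem {K : Set (G → ℝ)} (hc : IsClosed K) (hv : Convex ℝ K)
    (hb : ∀ f ∈ K, ∀ a, |f a| ≤ 1) (ht : ∀ g, ∀ f ∈ K, (fun a => f (a * g)) ∈ K)
    {p : G → ℝ} (hp : ∀ g, 0 ≤ p g) (hs : HasSum p 1) {f : G → ℝ} (hf : f ∈ K) :
    (fun a => ∑' g, p g * f (a * g)) ∈ K := by
  classical
  refine hc.mem_of_tendsto (b := atTop) (f := fun s : Finset G =>
    fun a => (1 - ∑ g ∈ s, p g) * f a + ∑ g ∈ s, p g * f (a * g)) ?_ (Eventually.of_forall ?_)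
  · rw [tendsto_pi_nhds]
    intro a
    have h1 : Tendsto (fun s : Finset G => ∑ g ∈ s, p g) atTop (𝓝 1) := hs
    have h2 : Tendsto (fun s : Finset G => ∑ g ∈ s, p g * f (a * g)) atTop
        (𝓝 (∑' g, p g * f (a * g))) := (summable_avg hp hs.summable (hb f hf) a).hasSum
    simpa using ((h1.const_sub 1).mul_const (f a)).add h2
  · intro s
    have := hv.sum_mem (t := Finset.insertNone s)
      (w := fun o => o.elim (1 - ∑ g ∈ s, p g) p)
      (z := fun o => o.elim f fun g a => f (a * g))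
      (by
        rintro (_ | g) _
        · exact sub_nonneg.2 (sum_le_hasSum s (fun g _ => hp g) hs)
        · exact hp g)
      (by simp [Finset.sum_insertNone])
      (by
        rintro (_ | g) _
        · exact hf
        · exact ht g f hf)
    convert this using 1
    ext a
    simp [Finset.sum_insertNone, Finset.sum_apply]

end Pool.Agent.P.MP_7e3bdd_an.W
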