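import Pool.Agent.P.MP_7e3bdd_an.WSpec

/-! The same operators in the concrete model of square-summable functions. -/

set_option autoImplicit false

open scoped InnerProductSpace

namespace Pool.Agent.P.MP_7e3bdd_an.W

/-- The right translation operators on the square-summable functions on `G`. -/
def rightTr (G : Type) [Group G] :
    Set (lp (fun _ : G => ℂ) 2 →L[ℂ] lp (fun _ : G => ℂ) 2) :=
  {r | ∃ y : G, ∀ (ξ : lp (fun _ : G => ℂ) 2) (g : G), r ξ g = ξ (g * y)}

/-- The left translation operators by elements of the subgroup `H`. -/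
def leftTr {G : Type} [Group G] (H : Subgroup G) :
    Set (lp (fun _ : G => ℂ) 2 →L[ℂ] lp (fun _ : G => ℂ) 2) :=
  {l | ∃ h ∈ H, ∀ (ξ : lp (fun _ : G => ℂ) 2) (g : G), l ξ g = ξ (h * g)}

/-- The group von Neumann algebra: the double commutant of the right translations. -/
def groupAlg (G : Type) [Group G] :
    Set (lp (fun _ : G => ℂ) 2 →L[ℂ] lp (fun _ : G => ℂ) 2) :=
  Set.centralizer (Set.centralizer (rightTr G))

/-- The basic construction: the commutant of the left translations by elements of `H`. -/
def basicAlg {G : Type} [Group G] (H : Subgroup G) :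
    Set (lp (fun _ : G => ℂ) 2 →L[ℂ] lp (fun _ : G => ℂ) 2) :=
  Set.centralizer (leftTr H)

end Pool.Agent.P.MP_7e3bdd_an.W
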