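import Pool.Agent.P.MP_7e3bdd_an.WConv

/-! Three forms of the Liouville property of a coset space. -/

set_option autoImplicit false

open Set Filter Topology

namespace Pool.Agent.P.MP_7e3bdd_an.W

variable {G : Type} [Group G]

/-- invariance under left multiplication by `H` -/
def Inv (H : Subgroup G) (f : G → ℝ) : Prop := ∀ h ∈ H, ∀ a, f (h * a) = f a

/-- fixed point form -/
def LK (H : Subgroup G) : Prop :=
  ∀ K : Set (G → ℝ), K.Nonempty → IsClosed K → Convex ℝ K →
    (∀ f ∈ K, (∀ a, |f a| ≤ 1) ∧ Inv H f) → (∀ g, ∀ f ∈ K, (fun a => f (a * g)) ∈ K) →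
      ∃ c : ℝ, (fun _ => c) ∈ K

/-- merging form -/
def LP (H : Subgroup G) : Prop :=
  ∀ (A : Finset G) (ε : ℝ), 0 < ε → ∃ (s : Finset G) (μ : G → ℝ), (∀ g, 0 ≤ μ g) ∧
    ∑ g ∈ s, μ g = 1 ∧ ∀ f : G → ℝ, (∀ a, |f a| ≤ 1) → Inv H f → ∀ a ∈ A, ∀ b ∈ A,
      |∑ g ∈ s, μ g * (f (a * g) - f (b * g))| ≤ ε

variable {H : Subgroup G}

theorem lk_of_liouville (h : Liouville H) : LK H := by
  obtain ⟨μ, h0, h1, h2⟩ := h
  intro K hne hc hv hb ht
  have hb' : ∀ f ∈ K, ∀ a, |f a| ≤ 1 := fun f hf => (hb f hf).1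
  obtain ⟨f, hf, hfix⟩ := exists_fixed hne hc hv hb' (fun f a => ∑' g, μ g * f (a * g))
    (by
      rw [continuousOn_pi]
      intro a
      refine continuousOn_tsum (u := μ) (fun g => by fun_prop) h1.summable fun g f hf => ?_
      rw [norm_mul, Real.norm_eq_abs, abs_of_nonneg (h0 g)]
      exact mul_le_of_le_one_right (h0 g) (hb' f hf _))
    (fun f hf => avg_mem hc hv hb' ht h0 h1 hf)
    (by
      intro f hf g hg s t _ _ _
      ext a
      simp only [Pi.add_apply, Pi.smul_apply, smul_eq_mul]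
      rw [← tsum_mul_left, ← tsum_mul_left, ← Summable.tsum_add
        ((summable_avg h0 h1.summable (hb' f hf) a).mul_left s)
        ((summable_avg h0 h1.summable (hb' g hg) a).mul_left t)]
      exact tsum_congr fun x => by ring)
  refine ⟨f 1, ?_⟩
  have : (fun _ => f 1) = f := funext fun a =>
    h2 f ⟨1, hb' f hf⟩ (hb f hf).2 (fun a => (congrFun hfix a).symm) 1 a
  rwa [this]

theorem LK.tuple (h : LK H) {ι : Type*} {K : Set (ι → G → ℝ)} (hne : K.Nonempty)
    (hc : IsClosed K) (hv : Convex ℝ K) (hb : ∀ Φ ∈ K, ∀ i, (∀ a, |Φ i a| ≤ 1) ∧ Inv H (Φ i))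
    (ht : ∀ g, ∀ Φ ∈ K, (fun i a => Φ i (a * g)) ∈ K) (u : Finset ι) :
    ∃ Φ ∈ K, ∀ i ∈ u, ∀ a b, Φ i a = Φ i b := by
  classical
  have hK : IsCompact K :=
    (isCompact_univ_pi fun _ : ι => isCompact_univ_pi fun _ : G =>
      isCompact_Icc (a := (-1 : ℝ)) (b := 1)).of_isClosed_subset hc
      fun Φ hΦ i _ a _ => abs_le.1 ((hb Φ hΦ i).1 a)
  induction u using Finset.induction_on with
  | empty => exact hne.imp fun Φ hΦ => ⟨hΦ, by simp⟩
  | insert j u _ ih =>
    set K' : Set (ι → G → ℝ) := K ∩ {Φ | ∀ i ∈ u, ∀ a b, Φ i a = Φ i b} with hK'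
    have hcl : IsClosed {Φ : ι → G → ℝ | ∀ i ∈ u, ∀ a b, Φ i a = Φ i b} := by
      simp only [ofPred_forall]
      exact isClosed_iInter fun i => isClosed_iInter fun _ => isClosed_iInter fun a =>
        isClosed_iInter fun b => isClosed_eq (by fun_prop) (by fun_prop)
    have hcv : Convex ℝ K' := hv.inter fun f hf g hg s t _ _ _ i hi a b => by
      simp only [Pi.add_apply, Pi.smul_apply, hf i hi a b, hg i hi a b]
    obtain ⟨c, Φ, hΦ, hc'⟩ := h ((fun Φ => Φ j) '' K') (Set.Nonempty.image _ ih)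
      ((hK.inter_right hcl).image (continuous_apply j)).isClosed
      (hcv.linear_image (LinearMap.proj (R := ℝ) (φ := fun _ : ι => G → ℝ) j))
      (by rintro _ ⟨Φ, hΦ, rfl⟩; exact hb Φ hΦ.1 j)
      (by
        rintro g _ ⟨Φ, hΦ, rfl⟩
        exact ⟨fun i a => Φ i (a * g), ⟨ht g Φ hΦ.1, fun i hi a b => hΦ.2 i hi _ _⟩, rfl⟩)
    refine ⟨Φ, hΦ.1, fun i hi a b => ?_⟩
    rcases Finset.mem_insert.1 hi with rfl | hi
    · simp only at hc'
      rw [hc']
    · exact hΦ.2 i hi a b

theorem lp_of_lk (h : LK H) : LP H := by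
  classical
  intro A ε hε
  by_contra hcon
  push Not at hcon
  let B : Set (G × G → G → ℝ) := {Φ | ∀ p, (∀ a, |Φ p a| ≤ 1) ∧ Inv H (Φ p)}
  let Λ : (G × G → G → ℝ) → G → ℝ :=
    fun Φ g => ∑ p ∈ A ×ˢ A, (Φ p (p.1 * g) - Φ p (p.2 * g))
  have hBc : IsClosed B := by
    simp only [B, Inv, ofPred_forall, ofPred_and]
    exact isClosed_iInter fun p => (isClosed_iInter fun a =>
      isClosed_le (by fun_prop) continuous_const).inter (isClosed_iInter fun h =>
        isClosed_iInter fun _ => isClosed_iInter fun a => isClosed_eq (by fun_prop) (by fun_prop))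
  have hBv : Convex ℝ B := by
    intro f hf g hg s t hs ht hst p
    refine ⟨fun a => ?_, fun k hk a => ?_⟩
    · have := (convex_Icc (-1 : ℝ) 1) (abs_le.1 ((hf p).1 a)) (abs_le.1 ((hg p).1 a)) hs ht hst
      exact abs_le.2 this
    · simp only [Pi.add_apply, Pi.smul_apply, (hf p).2 k hk a, (hg p).2 k hk a]
  have hΛ : ∀ f g : G × G → G → ℝ, ∀ s t : ℝ, ∀ x, Λ (s • f + t • g) x = s * Λ f x + t * Λ g x := by
    intro f g s t x
    simp only [Λ, Pi.add_apply, Pi.smul_apply, smul_eq_mul, Finset.mul_sum,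
      ← Finset.sum_add_distrib]
    exact Finset.sum_congr rfl fun p _ => by ring
  have hB : IsCompact B :=
    (isCompact_univ_pi fun _ : G × G => isCompact_univ_pi fun _ : G =>
      isCompact_Icc (a := (-1 : ℝ)) (b := 1)).of_isClosed_subset hBc
      fun Φ hΦ i _ a _ => abs_le.1 ((hΦ i).1 a)
  have hcl : ∀ g, IsClosed {Φ | ε ≤ Λ Φ g} := fun g =>
    isClosed_le continuous_const (by simp only [Λ]; fun_prop)
  have hfin : ∀ D : Finset G, (B ∩ ⋂ g ∈ D, {Φ | ε ≤ Λ Φ g}).Nonempty := by
    intro D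
    rcases D.eq_empty_or_nonempty with rfl | hD
    · exact ⟨0, fun p => ⟨by simp, fun _ _ _ => rfl⟩, by simp⟩
    have : Nonempty D := hD.to_subtype
    by_contra hem
    obtain ⟨ν, n0, n1, n2⟩ := sep ((fun Φ (g : D) => -Λ Φ g) '' B) (by
      rintro _ ⟨f, hf, rfl⟩ _ ⟨g, hg, rfl⟩ s t hs ht hst
      refine ⟨s • f + t • g, hBv hf hg hs ht hst, funext fun x => ?_⟩
      simp only [hΛ, Pi.add_apply, Pi.smul_apply, smul_eq_mul]
      ring) (-ε) (by
      rintro _ ⟨Φ, hΦ, rfl⟩
      by_contra hall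
      push Not at hall
      refine hem ⟨Φ, hΦ, ?_⟩
      simp only [mem_iInter, mem_ofPred_eq]
      intro g hg
      have := hall ⟨g, hg⟩
      linarith)
    let μ : G → ℝ := fun g => if hg : g ∈ D then ν ⟨g, hg⟩ else 0
    have hμ : ∀ φ : G → ℝ, ∑ g ∈ D, μ g * φ g = ∑ g : D, ν g * φ g := by
      intro φ
      rw [← Finset.sum_coe_sort D]
      exact Finset.sum_congr rfl fun g _ => by simp [μ]
    obtain ⟨f, f1, f2, a, ha, b, hb, hab⟩ := hcon D μ
      (fun g => by simp only [μ]; split_ifs; exacts [n0 _, le_rfl])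
      (by simpa only [mul_one, n1] using hμ fun _ => 1)
    have main : ∀ f : G → ℝ, (∀ a, |f a| ≤ 1) → Inv H f →
        ∑ g ∈ D, μ g * (f (a * g) - f (b * g)) ≤ ε := by
      intro f f1 f2
      have := n2 _ ⟨Pi.single (a, b) f, fun p => by
        by_cases hp : p = (a, b)
        · subst hp; simpa using ⟨f1, f2⟩
        · rw [Pi.single_eq_of_ne hp]; exact ⟨by simp, fun _ _ _ => rfl⟩, rfl⟩
      have e : ∀ g, Λ (Pi.single (a, b) f) g = f (a * g) - f (b * g) := by
        intro g
        simp only [Λ]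
        rw [Finset.sum_eq_single (a, b)]
        · simp
        · intro p _ hp; simp [Pi.single_eq_of_ne hp]
        · intro hp; exact absurd (Finset.mem_product.2 ⟨ha, hb⟩) hp
      simp only [e, mul_neg, Finset.sum_neg_distrib] at this
      rw [hμ]
      linarith
    have m1 := main f f1 f2
    have m2 := main (fun x => -f x) (fun x => by simpa using f1 x)
      (fun k hk x => by simp [f2 k hk x])
    have e : ∑ g ∈ D, μ g * (-f (a * g) - -f (b * g)) =
        -∑ g ∈ D, μ g * (f (a * g) - f (b * g)) := by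
      rw [← Finset.sum_neg_distrib]; exact Finset.sum_congr rfl fun g _ => by ring
    rw [e] at m2
    exact absurd (abs_le.2 ⟨by linarith, m1⟩) (not_le.2 hab)
  obtain ⟨Φ, hΦ, hconst⟩ := h.tuple (hB.inter_iInter_nonempty _ hcl hfin)
    (hBc.inter (isClosed_iInter hcl))
    (hBv.inter (convex_iInter fun x f hf g hg s t hs ht hst => by
      simp only [mem_ofPred_eq, hΛ] at hf hg ⊢
      nlinarith))
    (fun Φ hΦ => hΦ.1)
    (fun g Φ hΦ => ⟨fun p => ⟨fun a => (hΦ.1 p).1 _, fun k hk a => by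
        simp only [mul_assoc]; exact (hΦ.1 p).2 k hk _⟩, mem_iInter.2 fun x => by
      have := mem_iInter.1 hΦ.2 (x * g)
      simpa only [mem_ofPred_eq, Λ, mul_assoc] using this⟩) (A ×ˢ A)
  have := mem_iInter.1 hΦ.2 1
  simp only [mem_ofPred_eq, Λ] at this
  rw [Finset.sum_eq_zero fun p hp => by rw [hconst p hp (p.1 * 1) (p.2 * 1), sub_self]] at this
  linarith

omit [Group G] in
theorem mix_hasSum {t : ℕ → ℝ} (t0 : ∀ k, 0 ≤ t k) (t1 : Summable t) (s : ℕ → Finset G)
    (m : ℕ → G → ℝ) (m0 : ∀ k g, 0 ≤ m k g) (m1 : ∀ k, ∑ g ∈ s k, m k g = 1)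
    (mz : ∀ k, ∀ g ∉ s k, m k g = 0) (φ : G → ℝ) (C : ℝ) (hφ : ∀ g, |φ g| ≤ C) :
    (Summable fun g => (∑' k, t k * m k g) * φ g) ∧
    HasSum (fun k => t k * ∑ g ∈ s k, m k g * φ g) (∑' g, (∑' k, t k * m k g) * φ g) := by
  have row : ∀ (ψ : G → ℝ) (k : ℕ), HasSum (fun g => t k * m k g * ψ g)
      (t k * ∑ g ∈ s k, m k g * ψ g) := by
    intro ψ k
    rw [Finset.mul_sum]
    simp only [← mul_assoc]
    exact hasSum_sum_of_ne_finset_zero fun g hg => by simp [mz k g hg]
  have h1 : Summable fun p : ℕ × G => t p.1 * m p.1 p.2 * 1 := by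
    rw [summable_prod_of_nonneg fun p => by have := t0 p.1; have := m0 p.1 p.2; positivity]
    refine ⟨fun k => (row (fun _ => 1) k).summable, ?_⟩
    simp only [(row (fun _ => 1) _).tsum_eq]
    simpa only [mul_one, m1] using t1
  have h2 : Summable fun p : ℕ × G => t p.1 * m p.1 p.2 * φ p.2 :=
    Summable.of_norm_bounded (h1.mul_right C) fun p => by
      have := t0 p.1
      have := m0 p.1 p.2
      rw [norm_mul, Real.norm_eq_abs, abs_of_nonneg (by positivity), mul_one]
      exact mul_le_mul_of_nonneg_left (hφ _) (by positivity)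
  refine ⟨by simpa only [Prod.fst_swap, Prod.snd_swap, tsum_mul_right] using h2.prod_symm.prod, ?_⟩
  have h3 := h2.prod.hasSum
  have h4 := h2.tsum_comm (f := fun k g => t k * m k g * φ g)
  simp only [(row φ _).tsum_eq] at h3 h4
  simp only [tsum_mul_right] at h4
  rwa [h4]

open Pointwise in
theorem liouville_of_lp [Countable G] (h : LP H) : Liouville H := by
  classical
  obtain ⟨e, he⟩ := exists_surjective_nat G
  have h' : ∀ (A : Finset G) (k : ℕ), ∃ (s : Finset G) (μ : G → ℝ), (∀ g, 0 ≤ μ g) ∧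
      ∑ g ∈ s, μ g = 1 ∧ (∀ g ∉ s, μ g = 0) ∧
      ∀ f : G → ℝ, (∀ a, |f a| ≤ 1) → Inv H f → ∀ a ∈ A, ∀ b ∈ A,
        |∑ g ∈ s, μ g * (f (a * g) - f (b * g))| ≤ 1 / ((k : ℝ) + 1) := by
    intro A k
    obtain ⟨s, μ, h0, h1, h2⟩ := h A (1 / ((k : ℝ) + 1)) (by positivity)
    refine ⟨s, fun g => if g ∈ s then μ g else 0, fun g => ?_, ?_, fun g hg => if_neg hg,
      fun f f1 f2 a ha b hb => ?_⟩
    · beta_reduce; split_ifs; exacts [h0 g, le_rfl]
    · rw [← h1]; exact Finset.sum_congr rfl fun g hg => if_pos hg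
    · beta_reduce
      rw [Finset.sum_congr rfl fun g hg => by rw [if_pos hg]]
      exact h2 f f1 f2 a ha b hb
  choose S M h0 h1 hz h2 using h'
  let Y : ℕ → Finset G := fun k => (Finset.range k).image e
  let n : ℕ → ℕ := fun k => k * 2 ^ k
  let W : ℕ → Finset G := fun k => Nat.rec {1} (fun k Wk => Wk ∪ S (Y k * Wk ^ n k) k) k
  let Z : ℕ → Finset G := fun k => Y k * W k ^ n k
  have hW : ∀ k, W (k + 1) = W k ∪ S (Z k) k := fun k => rfl
  have Wm : Monotone W := monotone_nat_of_le_succ fun k => by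
    rw [hW]; exact Finset.subset_union_left
  have W1 : ∀ k, (1 : G) ∈ W k := fun k => Wm (Nat.zero_le k) (Finset.mem_singleton_self 1)
  have Ym : Monotone Y := fun i j hij => Finset.image_subset_image (Finset.range_mono hij)
  have nm : Monotone n := fun i j hij => Nat.mul_le_mul hij (Nat.pow_le_pow_right two_pos hij)
  let t : ℕ → ℝ := fun k => 1 / 2 / 2 ^ k
  have t0 : ∀ k, 0 ≤ t k := fun k => by positivity
  have t1 : HasSum t 1 := hasSum_geometric_two' 1
  have t2 : ∀ K, ∑ k ∈ Finset.range K, t k = 1 - 1 / 2 ^ K := by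
    intro K
    induction K with
    | zero => simp
    | succ K ih => rw [Finset.sum_range_succ, ih]; simp only [t]; field_simp; ring
  have mix := mix_hasSum t0 t1.summable (fun k => S (Z k) k) (fun k => M (Z k) k)
    (fun k => h0 _ _) (fun k => h1 _ _) (fun k => hz _ _)
  set μ : G → ℝ := fun g => ∑' k, t k * M (Z k) k g with hμ
  have μ0 : ∀ g, 0 ≤ μ g := fun g => tsum_nonneg fun k => mul_nonneg (t0 k) (h0 _ _ _)
  have μ1 : HasSum μ 1 := by
    obtain ⟨a1, a2⟩ := mix (fun _ => 1) 1 (by simp)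
    simp only [mul_one, h1] at a1 a2
    exact (a2.unique t1) ▸ a1.hasSum
  have main : ∀ f : G → ℝ, (∀ a, |f a| ≤ 1) → Inv H f → (∀ a, f a = ∑' g, μ g * f (a * g)) →
      ∀ a b, f a = f b := by
    intro f f1 f2 f3
    have step : ∀ a b, HasSum (fun k => t k * ∑ g ∈ S (Z k) k,
        M (Z k) k g * (f (a * g) - f (b * g))) (f a - f b) := by
      intro a b
      have := (mix (fun g => f (a * g) - f (b * g)) 2 fun g => by
        have := abs_le.1 (f1 (a * g))
        have := abs_le.1 (f1 (b * g))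
        rw [abs_le]; constructor <;> linarith).2
      convert this using 1
      rw [f3 a, f3 b, ← Summable.tsum_sub (summable_avg μ0 μ1.summable f1 a)
        (summable_avg μ0 μ1.summable f1 b)]
      exact tsum_congr fun g => by ring
    have osc : ∀ K j, j ≤ n K → ∀ a ∈ Y K * W K ^ (n K - j), ∀ b ∈ Y K * W K ^ (n K - j),
        |f a - f b| ≤ 2 * (1 - 1 / 2 ^ K) ^ j + 1 / ((K : ℝ) + 1) := by
      intro K j
      have hK : (0 : ℝ) ≤ 1 / ((K : ℝ) + 1) := by positivity
      have hτ : (0 : ℝ) ≤ 1 - 1 / 2 ^ K := by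
        rw [sub_nonneg, div_le_one (by positivity)]; exact one_le_pow₀ one_le_two
      induction j with
      | zero =>
        intro _ a _ b _
        have := abs_le.1 (f1 a)
        have := abs_le.1 (f1 b)
        rw [abs_le]; constructor <;> simp only [pow_zero] <;> linarith
      | succ j ih =>
        intro hj a ha b hb
        have hb1 : HasSum (fun k => t k * (1 / ((K : ℝ) + 1)) +
            (if k ∈ Finset.range K then t k * (2 * (1 - 1 / 2 ^ K) ^ j) else 0))
            (1 * (1 / ((K : ℝ) + 1)) + (1 - 1 / 2 ^ K) * (2 * (1 - 1 / 2 ^ K) ^ j)) := by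
          refine (t1.mul_right _).add ?_
          rw [← t2, Finset.sum_mul]
          have := hasSum_sum_of_ne_finset_zero (s := Finset.range K) (L := .unconditional ℕ)
            (f := fun k => if k ∈ Finset.range K then
              t k * (2 * (∑ k ∈ Finset.range K, t k) ^ j) else 0) fun k hk => if_neg hk
          rwa [Finset.sum_congr rfl fun k hk => if_pos hk] at this
        have := HasSum.norm_le_of_bounded (step a b) hb1 fun k => by
          rw [norm_mul, Real.norm_eq_abs, abs_of_nonneg (t0 k), Real.norm_eq_abs]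
          split_ifs with hk
          · rw [← mul_add]
            refine mul_le_mul_of_nonneg_left ?_ (t0 k)
            have hsub : S (Z k) k ⊆ W K := fun g hg =>
              Wm (Finset.mem_range.1 hk) (by rw [hW]; exact Finset.mem_union_right _ hg)
            have mem : ∀ a ∈ Y K * W K ^ (n K - (j + 1)), ∀ g ∈ S (Z k) k,
                a * g ∈ Y K * W K ^ (n K - j) := by
              intro a ha g hg
              rw [show n K - j = n K - (j + 1) + 1 by omega, pow_succ, ← mul_assoc]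
              exact Finset.mul_mem_mul ha (hsub hg)
            refine (Finset.abs_sum_le_sum_abs _ _).trans ?_
            calc ∑ g ∈ S (Z k) k, |M (Z k) k g * (f (a * g) - f (b * g))|
                ≤ ∑ g ∈ S (Z k) k,
                  M (Z k) k g * (1 / ((K : ℝ) + 1) + 2 * (1 - 1 / 2 ^ K) ^ j) :=
                  Finset.sum_le_sum fun g hg => by
                    rw [abs_mul, abs_of_nonneg (h0 _ _ _), add_comm]
                    exact mul_le_mul_of_nonneg_left
                      (ih (by omega) _ (mem a ha g hg) _ (mem b hb g hg)) (h0 _ _ _)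
              _ = _ := by rw [← Finset.sum_mul, h1, one_mul]
          · rw [add_zero]
            refine mul_le_mul_of_nonneg_left ?_ (t0 k)
            have hKk : K ≤ k := by simpa using hk
            have hsub : Y K * W K ^ (n K - (j + 1)) ⊆ Z k :=
              Finset.mul_subset_mul (Ym hKk) (Finset.pow_subset_pow (Wm hKk) (W1 k)
                ((Nat.sub_le _ _).trans (nm hKk)))
            refine (h2 (Z k) k f f1 f2 a (hsub ha) b (hsub hb)).trans ?_
            have : (K : ℝ) ≤ k := by exact_mod_cast hKk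
            gcongr
        rw [Real.norm_eq_abs] at this
        refine this.trans (le_of_eq ?_)
        ring
    intro a b
    obtain ⟨i, rfl⟩ := he a
    obtain ⟨j, rfl⟩ := he b
    have h0' : Tendsto (fun K : ℕ => 3 * (1 / ((K : ℝ) + 1))) atTop (𝓝 0) := by
      simpa using tendsto_one_div_add_atTop_nhds_zero_nat.const_mul (3 : ℝ)
    have : |f (e i) - f (e j)| ≤ 0 := by
      refine ge_of_tendsto h0' ((eventually_gt_atTop (max i j)).mono fun K hK => ?_)
      have mem : ∀ i, i < K → e i ∈ Y K * W K ^ (n K - n K) := fun i hi => by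
        rw [Nat.sub_self, pow_zero, mul_one]
        exact Finset.mem_image_of_mem _ (Finset.mem_range.2 hi)
      refine (osc K (n K) le_rfl _ (mem i (lt_of_le_of_lt (le_max_left _ _) hK)) _
        (mem j (lt_of_le_of_lt (le_max_right _ _) hK))).trans ?_
      have hτ : (0 : ℝ) ≤ 1 - 1 / 2 ^ K := by
        rw [sub_nonneg, div_le_one (by positivity)]; exact one_le_pow₀ one_le_two
      have b1 : (1 - 1 / 2 ^ K : ℝ) ^ n K ≤ Real.exp (-(1 / 2 ^ K)) ^ n K :=
        pow_le_pow_left₀ hτ (by linarith [Real.add_one_le_exp (-(1 / 2 ^ K : ℝ))]) _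
      have b2 : Real.exp (-(1 / 2 ^ K)) ^ n K = (Real.exp K)⁻¹ := by
        rw [← Real.exp_nat_mul, ← Real.exp_neg]
        congr 1
        simp only [n]
        push_cast
        field_simp
      have b3 : (Real.exp K)⁻¹ ≤ 1 / ((K : ℝ) + 1) := by
        rw [one_div]
        exact inv_anti₀ (by positivity) (Real.add_one_le_exp _)
      linarith
    exact sub_eq_zero.1 (abs_nonpos_iff.1 this)
  refine ⟨μ, μ0, μ1, fun f ⟨C, hC⟩ f2 f3 a b => ?_⟩
  have hC0 : 0 < |C| + 1 := by positivity
  have := main (fun x => f x / (|C| + 1)) (fun x => by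
      rw [abs_div, abs_of_pos hC0, div_le_one hC0]
      linarith [hC x, le_abs_self C])
    (fun k hk x => by simp only [f2 k hk x])
    (fun x => by
      simp only [← mul_div_assoc, tsum_div_const]
      rw [← f3 x]) a b
  exact (div_left_inj' hC0.ne').1 this

end Pool.Agent.P.MP_7e3bdd_an.W
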