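import Pool.Agent.P.MP_7e3bdd_an.Basic
import Pool.Agent.P.MP_7e3bdd_an.WLiou
import Pool.Agent.P.MP_7e3bdd_an.WCons

/-! The two conditions are necessary for the weak relative Dixmier property. -/

set_option autoImplicit false

open Set Filter Topology
open scoped InnerProductSpace

noncomputable section

namespace Pool.Agent.P.MP_7e3bdd_an.W

variable {G : Type} [Group G] [DecidableEq G] {H : Subgroup G}

omit [DecidableEq G] in
theorem mem_rightTr {r : L2 G →L[ℂ] L2 G} : r ∈ rightTr G ↔ ∃ y, r = rt y :=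
  ⟨fun ⟨y, h⟩ => ⟨y, by ext ξ g; exact h ξ g⟩, fun ⟨y, h⟩ => ⟨y, fun ξ g => by rw [h]; rfl⟩⟩

omit [DecidableEq G] in
theorem mem_basicAlg {x : L2 G →L[ℂ] L2 G} :
    x ∈ basicAlg H ↔ ∀ h ∈ H, lt h * x = x * lt h := by
  constructor
  · intro hx h hh
    exact hx _ ⟨h, hh, fun _ _ => rfl⟩
  · rintro hx l ⟨h, hh, hl⟩
    have : l = lt h := by ext ξ g; exact hl ξ g
    rw [this]; exact hx h hh

omit [DecidableEq G] in
theorem lt_comm_of_mem {u : L2 G →L[ℂ] L2 G} (hu : u ∈ groupAlg G) (y : G) :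
    lt y * u = u * lt y :=
  hu _ fun r hr => by
    obtain ⟨z, rfl⟩ := mem_rightTr.1 hr
    exact (lt_mul_rt y z).symm

omit [DecidableEq G] in
theorem mem_alg_of_mem {u : L2 G →L[ℂ] L2 G} (hu : u ∈ groupAlg G) : u ∈ alg (univ : Set G) :=
  (mem_alg _ _).2 fun k _ => ⟨lt_comm_of_mem hu k, lt_comm_of_mem hu k⁻¹⟩

omit [DecidableEq G] in
theorem star_rt (y : G) : star (rt y) = rt y⁻¹ := by
  rw [rt, star_comp, Equiv.mulRight_symm, rt]

omit [DecidableEq G] in
theorem rt_unitary (y : G) : rt y ∈ unitary (L2 G →L[ℂ] L2 G) := by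
  rw [Unitary.mem_iff, star_rt]
  constructor <;> ext ξ g <;> simp

omit [DecidableEq G] in
theorem rt_mem_groupAlg (y : G) : rt y ∈ groupAlg G :=
  Set.subset_centralizer_centralizer (mem_rightTr.2 ⟨y, rfl⟩)

omit [Group G] in
theorem inner_delta (a : G) (ξ : L2 G) : ⟪delta a, ξ⟫_ℂ = ξ a := by
  rw [delta, lp.inner_single_left]; simp

theorem mem_of_approx {X : Type*} {K : Set (X → ℝ)} (hc : IsClosed K) {φ : X → ℝ}
    (h : ∀ (P : Finset X) (ε : ℝ), 0 < ε → ∃ f ∈ K, ∀ a ∈ P, |f a - φ a| < ε) : φ ∈ K := by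
  rw [← hc.closure_eq, mem_closure_iff_nhds]
  intro t ht
  rw [nhds_pi, Filter.mem_pi] at ht
  obtain ⟨I, hI, u, hu, hsub⟩ := ht
  have : ∀ᶠ ε in 𝓝[>] (0 : ℝ), ∀ i ∈ I, Metric.ball (φ i) ε ⊆ u i := by
    rw [eventually_all_finite hI]
    intro i _
    obtain ⟨δ, hδ, hb⟩ := Metric.mem_nhds_iff.1 (hu i)
    exact ((eventually_lt_nhds hδ).filter_mono nhdsWithin_le_nhds).mono fun ε hε =>
      (Metric.ball_subset_ball hε.le).trans hb
  obtain ⟨ε, h1, h2⟩ := (this.and self_mem_nhdsWithin).exists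
  obtain ⟨f, hf, hP⟩ := h hI.toFinset ε h2
  exact ⟨f, hsub fun i hi => h1 i hi (by simpa [Real.dist_eq] using hP i (by simpa using hi)), hf⟩

theorem lk_of_wd (h : WeakDixmier (groupAlg G) (basicAlg H)) : LK H := by
  intro K ⟨f, hf⟩ hc hv hb ht
  have hx : mul f (hb f hf).1 ∈ basicAlg H := mem_basicAlg.2 fun k hk =>
    ((mem_alg _ _).1 (mul_mem_alg (H : Set G) f (hb f hf).1 (hb f hf).2) k hk).1
  obtain ⟨c, hc'⟩ := h _ hx
  refine ⟨c.re, mem_of_approx hc fun P ε hε => ?_⟩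
  obtain ⟨y, hy, hy'⟩ := hc' P.card (fun i => delta (P.equivFin.symm i : G))
    (fun i => delta (P.equivFin.symm i : G)) ε hε
  have hyK : (fun a => (y (delta a) a).re) ∈ K := by
    refine convexHull_min (t := {T : L2 G →L[ℂ] L2 G | (fun a => (T (delta a) a).re) ∈ K}) ?_ ?_ hy
    · rintro _ ⟨u, ⟨hu, huN⟩, rfl⟩
      have hn := hasSum_norm_sq ((star u) (delta (1 : G)))
      rw [ContinuousLinearMap.norm_map_of_mem_unitary (Unitary.star_mem hu), norm_delta,
        one_pow] at hn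
      have := avg_mem hc hv (fun f hf => (hb f hf).1) ht (fun g => by positivity) hn hf
      rw [mem_ofPred_eq]
      convert this using 2 with a
      rw [← inner_delta, ← (diag_hasSum f (hb f hf).1 u (mem_alg_of_mem huN) a).tsum_eq]
      exact tsum_congr fun g => mul_comm _ _
    · intro S hS T hT s t hs ht' hst
      have := hv hS hT hs ht' hst
      rw [mem_ofPred_eq]
      convert this using 2 with a
      change (((s : ℂ) * S (delta a) a + (t : ℂ) * T (delta a) a)).re = _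
      simp
  refine ⟨_, hyK, fun a ha => ?_⟩
  have := hy' (P.equivFin ⟨a, ha⟩)
  simp only [Equiv.symm_apply_apply, inner_delta] at this
  refine lt_of_le_of_lt ?_ this
  refine le_trans (le_of_eq ?_) (Complex.abs_re_le_norm _)
  congr 1
  change _ = (y (delta a) a - c * delta a a).re
  simp [delta_apply]

section Rel

variable (R : G → Finset G) (m : ℕ)

omit [Group G] in
theorem rel_sum_le (hm : ∀ x, (R x).card ≤ m) (hs : ∀ x y, y ∈ R x ↔ x ∈ R y) (ξ : L2 G)
    (u : Finset G) : ∑ z ∈ u, ‖∑ y ∈ R z, ξ y‖ ^ 2 ≤ (m * ‖ξ‖) ^ 2 := by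
  have h1 : ∀ z, ‖∑ y ∈ R z, ξ y‖ ^ 2 ≤ m * ∑ y ∈ R z, ‖ξ y‖ ^ 2 := fun z =>
    calc _ ≤ (∑ y ∈ R z, ‖ξ y‖) ^ 2 := by gcongr; exact norm_sum_le _ _
      _ ≤ (R z).card * ∑ y ∈ R z, ‖ξ y‖ ^ 2 := sq_sum_le_card_mul_sum_sq
      _ ≤ _ := by gcongr; exact hm z
  have h2 : ∑ z ∈ u, ∑ y ∈ R z, ‖ξ y‖ ^ 2 ≤ m * ‖ξ‖ ^ 2 := by
    rw [Finset.sum_comm' (t' := u.biUnion R) (s' := fun y => u.filter fun z => y ∈ R z) (by
      intro z y
      simp only [Finset.mem_filter, Finset.mem_biUnion]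
      exact ⟨fun h => ⟨h, z, h⟩, fun h => h.1⟩)]
    calc _ ≤ ∑ y ∈ u.biUnion R, m * ‖ξ y‖ ^ 2 := Finset.sum_le_sum fun y _ => by
          rw [Finset.sum_const, nsmul_eq_mul]
          gcongr
          exact (Finset.card_le_card fun z hz => (hs z y).1 (Finset.mem_filter.1 hz).2).trans (hm y)
      _ ≤ _ := by
          rw [← Finset.mul_sum]
          gcongr
          exact sum_le_hasSum _ (fun _ _ => by positivity) (hasSum_norm_sq ξ)
  calc _ ≤ ∑ z ∈ u, m * ∑ y ∈ R z, ‖ξ y‖ ^ 2 := Finset.sum_le_sum fun z _ => h1 z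
    _ ≤ m * (m * ‖ξ‖ ^ 2) := by rw [← Finset.mul_sum]; gcongr
    _ = _ := by ring

/-- the adjacency operator, as a linear map -/
def relL (hm : ∀ x, (R x).card ≤ m) (hs : ∀ x y, y ∈ R x ↔ x ∈ R y) : L2 G →ₗ[ℂ] L2 G where
  toFun ξ := ⟨fun z => ∑ y ∈ R z, ξ y, by
    change Memℓp (fun z => ∑ y ∈ R z, ξ y) 2
    rw [memℓp_two_iff]
    exact summable_of_sum_le (fun _ => by positivity) (rel_sum_le R m hm hs ξ)⟩
  map_add' ξ η := by
    ext z
    exact Finset.sum_add_distrib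
  map_smul' c ξ := by
    ext z
    exact (Finset.mul_sum _ _ c).symm

omit [Group G] in
theorem relL_le (hm : ∀ x, (R x).card ≤ m) (hs : ∀ x y, y ∈ R x ↔ x ∈ R y) (ξ : L2 G) :
    ‖relL R m hm hs ξ‖ ≤ m * ‖ξ‖ :=
  norm_le_of_hasSum _ _ (by positivity)
    (Real.tsum_le_of_sum_le (fun _ => by positivity) (rel_sum_le R m hm hs ξ))

/-- the adjacency operator -/
def rel (hm : ∀ x, (R x).card ≤ m) (hs : ∀ x y, y ∈ R x ↔ x ∈ R y) : L2 G →L[ℂ] L2 G :=
  (relL R m hm hs).mkContinuous m (relL_le R m hm hs)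

end Rel

omit [DecidableEq G] in
theorem norm_lt (y : G) (ξ : L2 G) : ‖lt y ξ‖ ≤ ‖ξ‖ := by
  refine norm_le_of_hasSum _ _ (norm_nonneg _) (le_of_eq ?_)
  rw [← (hasSum_norm_sq ξ).tsum_eq]
  exact (Equiv.mulLeft y).tsum_eq (fun g => ‖ξ g‖ ^ 2)

theorem rel_estimate {R : G → Finset G} {m : ℕ} (hm : ∀ x, (R x).card ≤ m)
    (hs : ∀ x y, y ∈ R x ↔ x ∈ R y) {u : L2 G →L[ℂ] L2 G} (hu : u ∈ unitary (L2 G →L[ℂ] L2 G))
    (huN : u ∈ groupAlg G) (a b : G) (S : Finset G) (hb : b ∈ S) (hS : S.card ≤ m) :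
    3 / 4 - 4 * m ^ 2 * ∑' g, (if R (a * g) = S.image (· * g) then 0 else 1) *
      ‖star u (delta 1) g‖ ^ 2 ≤ ((u * rel R m hm hs * star u) (delta b) a).re := by
  set η : L2 G := (star u) (delta 1) with hη
  have hu' : star u ∈ alg (Set.univ : Set G) := star_mem (mem_alg_of_mem huN)
  have h1 : ∀ y, (star u) (delta y) = lt y⁻¹ η := fun y => by
    have := congrArg (fun T : L2 G →L[ℂ] L2 G => T (delta 1))
      (((mem_alg _ _).1 hu' y (Set.mem_univ y)).2)
    simpa [lt_delta_one] using this.symm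
  have hn : ‖η‖ = 1 := by
    rw [hη, ContinuousLinearMap.norm_map_of_mem_unitary (Unitary.star_mem hu), norm_delta]
  set v : L2 G := lt a (rel R m hm hs (lt b⁻¹ η)) with hv
  have h2 : (u * rel R m hm hs * star u) (delta b) a = ⟪η, v⟫_ℂ := by
    rw [← inner_delta]
    have : ⟪delta a, (u * rel R m hm hs * star u) (delta b)⟫_ℂ =
        ⟪star u (delta a), rel R m hm hs (star u (delta b))⟫_ℂ := by
      rw [ContinuousLinearMap.star_eq_adjoint, ContinuousLinearMap.adjoint_inner_left]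
      rfl
    rw [this, h1, h1, hv, ← star_lt, ContinuousLinearMap.star_eq_adjoint,
      ContinuousLinearMap.adjoint_inner_left]
  set ψ : L2 G := ∑ s ∈ S, lt (b⁻¹ * s) η with hψ
  have h3 : ⟪η, ψ⟫_ℂ = 1 := by
    rw [hψ, inner_sum, Finset.sum_eq_single_of_mem b hb]
    · rw [inv_mul_cancel]
      have : lt (1 : G) η = η := by ext g; simp
      rw [this, inner_self_eq_norm_sq_to_K, hn]; simp
    · intro s _ hsb
      have e := h1 (s⁻¹ * b)
      rw [mul_inv_rev, inv_inv] at e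
      rw [← e, hη, ContinuousLinearMap.inner_map_map_of_mem_unitary (Unitary.star_mem hu),
        inner_delta, delta_apply, if_neg]
      intro h
      exact hsb (inv_mul_eq_one.1 h.symm)
  have h4 : ‖v - ψ‖ ≤ 2 * m := by
    have a1 : ‖v‖ ≤ m := (norm_lt _ _).trans ((relL_le R m hm hs _).trans (by
      have := (norm_lt b⁻¹ η).trans hn.le
      exact mul_le_of_le_one_right (by positivity) this))
    have a2 : ‖ψ‖ ≤ m := (norm_sum_le _ _).trans ((Finset.sum_le_card_nsmul _ _ 1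
      fun s _ => (norm_lt _ _).trans hn.le).trans (by simpa using hS))
    linarith [norm_sub_le v ψ]
  set χ : G → ℝ := fun g => if R (a * g) = S.image (· * g) then 0 else 1 with hχ
  have hχ1 : ∀ g, |χ g| ≤ 1 := fun g => by simp only [hχ]; split_ifs <;> simp
  have h5 : ⟪η, v - ψ⟫_ℂ = ⟪mul χ hχ1 η, v - ψ⟫_ℂ := by
    rw [lp.inner_eq_tsum, lp.inner_eq_tsum]
    refine tsum_congr fun g => ?_
    by_cases hg : R (a * g) = S.image (· * g)
    · have : (v - ψ) g = 0 := by
        rw [lp.coeFn_sub, Pi.sub_apply, sub_eq_zero, hψ, lp.coeFn_sum, Finset.sum_apply]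
        change ∑ y ∈ R (a * g), η (b⁻¹ * y) = _
        rw [hg, Finset.sum_image fun x _ y _ h => mul_right_cancel h]
        simp [mul_assoc]
      simp [this]
    · have : χ g = 1 := if_neg hg
      simp [this]
  have h6 : ‖mul χ hχ1 η‖ ^ 2 = ∑' g, χ g * ‖η g‖ ^ 2 := by
    rw [← (hasSum_norm_sq _).tsum_eq]
    refine tsum_congr fun g => ?_
    simp only [mul_apply, hχ]
    split_ifs <;> simp
  have h7 : ‖⟪η, v - ψ⟫_ℂ‖ ≤ ‖mul χ hχ1 η‖ * (2 * m) := by
    rw [h5]
    exact (norm_inner_le_norm _ _).trans (by gcongr)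
  rw [inner_sub_right, h3] at h7
  have h8 := (Complex.abs_re_le_norm _).trans h7
  rw [Complex.sub_re, Complex.one_re] at h8
  rw [h2, ← h6]
  nlinarith [(abs_le.1 h8).1, sq_nonneg (2 * m * ‖mul χ hχ1 η‖ - 1 / 2)]

theorem escapes_of_wd (h : WeakDixmier (groupAlg G) (basicAlg H)) : Escapes H := by
  classical
  by_contra hne
  obtain ⟨m, hm⟩ := cons_of_not_escapes hne
  obtain ⟨ι, _, ν, a, S, R, n0, n1, hS, ha, hcard, hR, hsym, hinv, hgood⟩ :=
    hm (1 / (16 * m ^ 2 + 1)) (by positivity)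
  choose b hb using hS
  have hx : rel R m hR hsym ∈ basicAlg H := mem_basicAlg.2 fun k hk => by
    ext ξ z
    change ∑ y ∈ R (k * z), ξ y = ∑ y ∈ R z, ξ (k * y)
    refine (Finset.sum_bijective (k * ·) (Group.mulLeft_bijective k) ?_ fun _ _ => rfl).symm
    intro y
    exact (hinv k hk z y).symm
  obtain ⟨c, hc⟩ := h _ hx
  obtain ⟨y, hy, hy'⟩ := hc (Fintype.card ι) (fun i => delta (b ((Fintype.equivFin ι).symm i)))
    (fun i => delta (a ((Fintype.equivFin ι).symm i))) (1 / 4) (by norm_num)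
  have hlow : 1 / 2 ≤ ∑ i, ν i * (y (delta (b i)) (a i)).re := by
    refine convexHull_min
      (t := {T : L2 G →L[ℂ] L2 G | 1 / 2 ≤ ∑ i, ν i * (T (delta (b i)) (a i)).re}) ?_ ?_ hy
    · rintro _ ⟨u, ⟨hu, huN⟩, rfl⟩
      have hn := hasSum_norm_sq ((star u) (delta (1 : G)))
      rw [ContinuousLinearMap.norm_map_of_mem_unitary (Unitary.star_mem hu), norm_delta,
        one_pow] at hn
      set β : ι → G → ℝ := fun i g => if R (a i * g) = (S i).image (· * g) then 0 else 1 with hβ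
      have hs : ∀ i, Summable fun g => β i g * ‖star u (delta 1) g‖ ^ 2 := fun i =>
        Summable.of_nonneg_of_le (fun g => by simp only [hβ]; split_ifs <;> simp)
          (fun g => by simp only [hβ]; split_ifs <;> simp) hn.summable
      have e1 : ∑ i, ν i * ∑' g, β i g * ‖star u (delta 1) g‖ ^ 2 ≤
          1 / (16 * m ^ 2 + 1) * 1 := by
        refine hasSum_le (fun g => ?_)
          (hasSum_sum fun i (_ : i ∈ Finset.univ) => (hs i).hasSum.mul_left (ν i))
          (hn.mul_left _)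
        simp only [← mul_assoc]
        rw [← Finset.sum_mul]
        refine mul_le_mul_of_nonneg_right ?_ (by positivity)
        refine le_trans (le_of_eq ?_) (hgood g)
        exact Finset.sum_congr rfl fun i _ => by
          simp only [hβ]; congr; exact Subsingleton.elim _ _
      have e2 : ∑ i, ν i * (3 / 4 - 4 * m ^ 2 * ∑' g, β i g * ‖star u (delta 1) g‖ ^ 2) ≤
          ∑ i, ν i * ((u * rel R m hR hsym * star u) (delta (b i)) (a i)).re :=
        Finset.sum_le_sum fun i _ => mul_le_mul_of_nonneg_left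
          (rel_estimate hR hsym hu huN (a i) (b i) (S i) (hb i) (hcard i)) (n0 i)
      have e3 : ∑ i, ν i * (3 / 4 - 4 * m ^ 2 * ∑' g, β i g * ‖star u (delta 1) g‖ ^ 2) =
          3 / 4 * ∑ i, ν i -
            4 * m ^ 2 * ∑ i, ν i * ∑' g, β i g * ‖star u (delta 1) g‖ ^ 2 := by
        rw [Finset.mul_sum, Finset.mul_sum, ← Finset.sum_sub_distrib]
        exact Finset.sum_congr rfl fun i _ => by ring
      have e4 : 4 * (m : ℝ) ^ 2 * (1 / (16 * m ^ 2 + 1) * 1) ≤ 1 / 4 := by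
        rw [mul_one, mul_one_div, div_le_iff₀ (by positivity)]
        linarith
      have e5 := mul_le_mul_of_nonneg_left e1 (by positivity : (0 : ℝ) ≤ 4 * m ^ 2)
      rw [e3, n1] at e2
      rw [mem_ofPred_eq]
      linarith
    · intro S hS T hT s t hs ht hst
      rw [mem_ofPred_eq] at hS hT ⊢
      have : ∑ i, ν i * ((s • S + t • T) (delta (b i)) (a i)).re =
          s * ∑ i, ν i * (S (delta (b i)) (a i)).re +
            t * ∑ i, ν i * (T (delta (b i)) (a i)).re := by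
        rw [Finset.mul_sum, Finset.mul_sum, ← Finset.sum_add_distrib]
        refine Finset.sum_congr rfl fun i _ => ?_
        change ν i * ((s : ℂ) * S (delta (b i)) (a i) + (t : ℂ) * T (delta (b i)) (a i)).re = _
        simp only [Complex.add_re, Complex.re_ofReal_mul]
        ring
      refine le_trans ?_ (le_of_eq this.symm)
      nlinarith
  have hup : ∑ i, ν i * (y (delta (b i)) (a i)).re ≤ ∑ i, ν i * (1 / 4) :=
    Finset.sum_le_sum fun i _ => mul_le_mul_of_nonneg_left (by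
      have := hy' (Fintype.equivFin ι i)
      simp only [Equiv.symm_apply_apply, inner_delta] at this
      have e : ((y - c • (1 : L2 G →L[ℂ] L2 G)) (delta (b i))) (a i) = y (delta (b i)) (a i) := by
        change y (delta (b i)) (a i) - c * delta (b i) (a i) = _
        rw [delta_apply, if_neg fun h : a i = b i => ha i (h ▸ hb i)]
        simp
      rw [e] at this
      exact (Complex.re_le_norm _).trans this.le) (n0 i)
  rw [← Finset.sum_mul, n1] at hup
  linarith

end Pool.Agent.P.MP_7e3bdd_an.W
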