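import Mathlib

/-! Definitions used in the statements about group basic constructions. -/

set_option autoImplicit false

open scoped InnerProductSpace

namespace Pool.Agent.P.MP_7e3bdd_an.W

namespace B

variable {G : Type} [Group G] {E : Type} [NormedAddCommGroup E] [InnerProductSpace ℂ E]

/-- The right translation operators for an orthonormal basis indexed by the group `G`. -/
def rightTr (b : HilbertBasis G ℂ E) : Set (E →L[ℂ] E) :=
  {r | ∃ y : G, ∀ g : G, r (b g) = b (g * y)}

/-- The left translation operators by elements of the subgroup `H`. -/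
def leftTr (b : HilbertBasis G ℂ E) (H : Subgroup G) : Set (E →L[ℂ] E) :=
  {l | ∃ h ∈ H, ∀ g : G, l (b g) = b (h * g)}

/-- The group von Neumann algebra: the double commutant of the right translations. -/
def groupAlg (b : HilbertBasis G ℂ E) : Set (E →L[ℂ] E) :=
  Set.centralizer (Set.centralizer (rightTr b))

/-- The basic construction: the commutant of the left translations by elements of `H`. -/
def basicAlg (b : HilbertBasis G ℂ E) (H : Subgroup G) : Set (E →L[ℂ] E) :=
  Set.centralizer (leftTr b H)

end B

/-- For every `x` in `M` the weak operator closure of the convex hull of the conjugates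
`u x u*`, `u` in `U`, contains a scalar. -/
def AveragesToScalars {E : Type} [NormedAddCommGroup E] [InnerProductSpace ℂ E] [CompleteSpace E]
    (U M : Set (E →L[ℂ] E)) : Prop :=
  ∀ x ∈ M, ∃ c : ℂ, ∀ (n : ℕ) (ξ η : Fin n → E) (ε : ℝ), 0 < ε →
    ∃ y ∈ convexHull ℝ {T : E →L[ℂ] E | ∃ u ∈ U, T = u * x * star u},
      ∀ i : Fin n, ‖⟪η i, (y - c • (1 : E →L[ℂ] E)) (ξ i)⟫_ℂ‖ < ε

/-- The weak relative Dixmier property in the form used for irreducible inclusions. -/
def WeakDixmier {E : Type} [NormedAddCommGroup E] [InnerProductSpace ℂ E] [CompleteSpace E]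
    (N M : Set (E →L[ℂ] E)) : Prop :=
  AveragesToScalars {u | u ∈ unitary (E →L[ℂ] E) ∧ u ∈ N} M

/-- The action of `G` on the right cosets of `H` is Liouville: for some probability measure `μ`
on `G` every bounded `μ`-harmonic function on the coset space is constant. -/
def Liouville {G : Type} [Group G] (H : Subgroup G) : Prop :=
  ∃ μ : G → ℝ, (∀ g, 0 ≤ μ g) ∧ HasSum μ 1 ∧
    ∀ f : G → ℝ, (∃ C : ℝ, ∀ a, |f a| ≤ C) → (∀ h ∈ H, ∀ a, f (h * a) = f a) →
      (∀ a, f a = ∑' g, μ g * f (a * g)) → ∀ a b, f a = f b

/-- Every graph on `G` of bounded degree that is invariant under left multiplication by `H` has,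
for each finite set `F`, an independent set of the form `F g`. -/
def Escapes {G : Type} [Group G] (H : Subgroup G) : Prop :=
  ∀ (Γ : SimpleGraph G) (m : ℕ), (∀ a, (Γ.neighborSet a).encard ≤ m) →
    (∀ h ∈ H, ∀ a b, Γ.Adj a b → Γ.Adj (h * a) (h * b)) →
      ∀ F : Finset G, ∃ g : G, ∀ a ∈ F, ∀ b ∈ F, ¬ Γ.Adj (a * g) (b * g)

end Pool.Agent.P.MP_7e3bdd_an.W
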