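import Pool.Agent.P.MP_7e3bdd_an.WOp

/-! The two conditions are sufficient, already for averages over the group itself. -/

set_option autoImplicit false

open Set Filter Topology
open scoped InnerProductSpace NNReal

noncomputable section

namespace Pool.Agent.P.MP_7e3bdd_an.W

variable {G : Type} [Group G] [DecidableEq G] {H : Subgroup G}

theorem conj_entry (x : L2 G →L[ℂ] L2 G) (g a b : G) :
    (rt g * x * star (rt g)) (delta b) a = x (delta (b * g)) (a * g) := by
  have : rt g⁻¹ (delta b) = delta (b * g) := by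
    ext z
    simp [delta_apply, mul_inv_eq_iff_eq_mul]
  rw [star_rt, ← this]
  rfl

theorem entry_inv {x : L2 G →L[ℂ] L2 G} (hx : x ∈ basicAlg H) {h : G} (hh : h ∈ H) (a b : G) :
    x (delta (h * b)) (h * a) = x (delta b) a := by
  have e : lt h (delta (h * b)) = delta b := by
    ext z
    simp [delta_apply]
  have := congrArg (fun T : L2 G →L[ℂ] L2 G => T (delta (h * b)) a) (mem_basicAlg.1 hx h hh)
  rw [← e]
  exact this

omit [Group G] in
theorem norm_entry_le (x : L2 G →L[ℂ] L2 G) (a b : G) : ‖x (delta b) a‖ ≤ ‖x‖ :=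
  (lp.norm_apply_le_norm (by norm_num) _ a).trans
    ((x.le_opNorm _).trans (by rw [norm_delta, mul_one]))

omit [Group G] in
theorem norm_entry_star (x : L2 G →L[ℂ] L2 G) (a b : G) :
    ‖x (delta b) a‖ = ‖star x (delta a) b‖ := by
  rw [← inner_delta, ← inner_delta, norm_inner_symm, ContinuousLinearMap.star_eq_adjoint,
    ContinuousLinearMap.adjoint_inner_right]

omit [Group G] [DecidableEq G] in
theorem encard_large (ξ : L2 G) {C δ : ℝ} (hδ : 0 < δ) (hC : ‖ξ‖ ≤ C) :
    {b | δ < ‖ξ b‖}.encard ≤ (⌈C ^ 2 / δ ^ 2⌉₊ : ℕ) := by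
  have hM : ∀ s : Finset G, ∑ b ∈ s, ‖ξ b‖ ^ 2 ≤ C ^ 2 := fun s =>
    (sum_le_hasSum _ (fun _ _ => by positivity) (hasSum_norm_sq ξ)).trans (by gcongr)
  have hf : {b | δ < ‖ξ b‖}.Finite :=
    (finite_of_row (θ := δ ^ 2) (by positivity) hM).subset fun b hb => by
      rw [mem_ofPred_eq] at hb ⊢
      gcongr
  rw [hf.encard_eq_coe_toFinset_card]
  have := (card_le_of_row (θ := δ ^ 2) (by positivity) hM hf.toFinset fun b hb => by
    have hb' : δ < ‖ξ b‖ := by simpa using hb
    gcongr).trans (Nat.le_ceil _)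
  exact_mod_cast this

theorem step_entries (h1 : LP H) (h2 : Escapes H) {x : L2 G →L[ℂ] L2 G} (hx : x ∈ basicAlg H)
    (P : Finset G) {δ : ℝ} (hδ : 0 < δ) :
    ∃ y ∈ convexHull ℝ {T : L2 G →L[ℂ] L2 G | ∃ u ∈ rightTr G, T = u * x * star u},
      ∃ c : ℂ, ‖c‖ ≤ ‖x‖ ∧ ∀ a ∈ P, ∀ b ∈ P, ‖y (delta b) a - c * delta b a‖ ≤ δ := by
  have hN : 0 < ‖x‖ + 1 := by positivity
  obtain ⟨s, μ, m0, m1, hμ⟩ := h1 (insert 1 P) (δ / (2 * (‖x‖ + 1))) (by positivity)
  let Γ : SimpleGraph G := SimpleGraph.fromRel fun a b => δ < ‖x (delta b) a‖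
  obtain ⟨g₀, hg₀⟩ := h2 Γ (⌈‖x‖ ^ 2 / δ ^ 2⌉₊ + ⌈‖x‖ ^ 2 / δ ^ 2⌉₊) (fun a => by
      have : Γ.neighborSet a ⊆ {b | δ < ‖star x (delta a) b‖} ∪ {b | δ < ‖x (delta a) b‖} := by
        intro b hb
        rw [SimpleGraph.mem_neighborSet, SimpleGraph.fromRel_adj] at hb
        exact hb.2.imp_left fun h => by rwa [norm_entry_star] at h
      refine (Set.encard_le_encard this).trans ((Set.encard_union_le _ _).trans ?_)
      push_cast
      exact add_le_add
        (encard_large _ hδ (((star x).le_opNorm _).trans (by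
          rw [norm_delta, mul_one, ContinuousLinearMap.star_eq_adjoint,
            LinearIsometryEquiv.norm_map])))
        (encard_large _ hδ ((x.le_opNorm _).trans (by rw [norm_delta, mul_one]))))
    (fun h hh a b hab => by
      rw [SimpleGraph.fromRel_adj] at hab ⊢
      rw [entry_inv hx hh, entry_inv hx hh]
      exact ⟨fun e => hab.1 (mul_left_cancel e), hab.2⟩)
    (Finset.image₂ (· * ·) P s)
  have hy : ∀ a b, (∑ g ∈ s, μ g • (rt (g * g₀) * x * star (rt (g * g₀)))) (delta b) a =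
      ∑ g ∈ s, (μ g : ℂ) * x (delta (b * g * g₀)) (a * g * g₀) := by
    intro a b
    rw [_root_.sum_apply, lp.coeFn_sum, Finset.sum_apply]
    refine Finset.sum_congr rfl fun g _ => ?_
    rw [mul_assoc b, mul_assoc a, ← conj_entry]
    rfl
  have hle : ∀ (φ : G → ℂ) (C : ℝ), (∀ g ∈ s, ‖φ g‖ ≤ C) → ‖∑ g ∈ s, (μ g : ℂ) * φ g‖ ≤ C := by
    intro φ C hφ
    refine (norm_sum_le _ _).trans ?_
    calc _ ≤ ∑ g ∈ s, μ g * C := Finset.sum_le_sum fun g hg => by
          rw [norm_mul, Complex.norm_real, Real.norm_eq_abs, abs_of_nonneg (m0 g)]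
          exact mul_le_mul_of_nonneg_left (hφ g hg) (m0 g)
      _ = C := by rw [← Finset.sum_mul, m1, one_mul]
  refine ⟨_, (convex_convexHull ℝ _).sum_mem (fun g _ => m0 g) m1 fun g _ =>
    subset_convexHull ℝ _ ⟨_, mem_rightTr.2 ⟨g * g₀, rfl⟩, rfl⟩,
    ∑ g ∈ s, (μ g : ℂ) * x (delta (1 * g * g₀)) (1 * g * g₀),
    hle _ _ fun g _ => norm_entry_le _ _ _, fun a ha b hb => ?_⟩
  rw [hy, delta_apply]
  split_ifs with hab
  · subst hab
    have key : ∀ ρ : ℂ →L[ℝ] ℝ, (∀ z, |ρ z| ≤ ‖z‖) →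
        |ρ (∑ g ∈ s, (μ g : ℂ) * x (delta (a * g * g₀)) (a * g * g₀) -
          (∑ g ∈ s, (μ g : ℂ) * x (delta (1 * g * g₀)) (1 * g * g₀)) * 1)| ≤ δ / 2 := by
      intro ρ hρ
      have := hμ (fun z => ρ (x (delta (z * g₀)) (z * g₀)) / (‖x‖ + 1)) (fun z => by
        rw [abs_div, abs_of_pos hN, div_le_one hN]
        exact (hρ _).trans ((norm_entry_le _ _ _).trans (by linarith)))
        (fun h hh z => by simp only [mul_assoc h, entry_inv hx hh]) a (by simp [ha]) 1 (by simp)
      simp only [← sub_div, ← mul_div_assoc] at this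
      rw [← Finset.sum_div, abs_div, abs_of_pos hN, div_le_iff₀ hN] at this
      refine le_trans (le_of_eq ?_) (this.trans (le_of_eq (by field_simp)))
      rw [mul_one, ← Finset.sum_sub_distrib, map_sum]
      congr 1
      refine Finset.sum_congr rfl fun g _ => ?_
      rw [← mul_sub, ← Complex.real_smul, map_smul, map_sub, smul_eq_mul]
    have k1 := key Complex.reCLM Complex.abs_re_le_norm
    have k2 := key Complex.imCLM Complex.abs_im_le_norm
    refine (Complex.norm_le_abs_re_add_abs_im _).trans ?_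
    rw [Complex.reCLM_apply] at k1
    rw [Complex.imCLM_apply] at k2
    linarith
  · rw [mul_zero, sub_zero]
    refine hle _ _ fun g hg => ?_
    have := hg₀ _ (Finset.mem_image₂_of_mem ha hg) _ (Finset.mem_image₂_of_mem hb hg)
    rw [SimpleGraph.fromRel_adj] at this
    by_contra hc
    exact this ⟨fun e => hab (mul_right_cancel (mul_right_cancel e)), Or.inl (not_le.1 hc)⟩

omit [Group G] in
theorem tendsto_of_single {ι : Type} {l : Filter ι} (F : ι → L2 G →+ ℂ) (C : ℝ≥0)
    (hL : ∀ j, LipschitzWith C (F j))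
    (hs : ∀ (b : G) (c : ℂ), Tendsto (fun j => F j (lp.single 2 b c)) l (𝓝 0)) (ξ : L2 G) :
    Tendsto (fun j => F j ξ) l (𝓝 0) := by
  have hc := ((LipschitzWith.uniformEquicontinuous (fun j => (F j : L2 G → ℂ)) C
    hL).equicontinuous).isClosed_setOfPred_tendsto (l := l) (f := fun _ => 0) continuous_const
  refine hc.mem_of_tendsto (lp.hasSum_single (by norm_num) ξ) (Eventually.of_forall fun u => ?_)
  rw [mem_ofPred_eq]
  simp only [map_sum]
  simpa using tendsto_finsetSum u fun b _ => hs b (ξ b)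

omit [Group G] in
theorem single_eq (b : G) (c : ℂ) : (lp.single 2 b c : L2 G) = c • delta b := by
  rw [delta, ← lp.single_smul, smul_eq_mul, mul_one]

omit [Group G] in
theorem tendsto_of_entries {ι : Type} {l : Filter ι} (T : ι → L2 G →L[ℂ] L2 G) (C : ℝ≥0)
    (hC : ∀ j, ‖T j‖ ≤ C) (h : ∀ a b, Tendsto (fun j => T j (delta b) a) l (𝓝 0))
    (ξ η : L2 G) : Tendsto (fun j => ⟪η, T j ξ⟫_ℂ) l (𝓝 0) := by
  have h1 : ∀ a, Tendsto (fun j => ⟪delta a, T j ξ⟫_ℂ) l (𝓝 0) := fun a =>
    tendsto_of_single (fun j => ((innerSL ℂ (delta a)).comp (T j) : L2 G →+ ℂ)) C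
      (fun j => (((innerSL ℂ (delta a)).comp (T j)).lipschitz).weaken (by
        rw [← NNReal.coe_le_coe, coe_nnnorm]
        refine (ContinuousLinearMap.opNorm_comp_le _ _).trans ?_
        rw [innerSL_apply_norm, norm_delta, one_mul]
        exact hC j))
      (fun b c => by
        have := (h a b).const_mul c
        rw [mul_zero] at this
        refine this.congr fun j => ?_
        change _ = ⟪delta a, T j (lp.single 2 b c)⟫_ℂ
        rw [single_eq, map_smul, inner_smul_right, inner_delta]) ξ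
  have h2 : Tendsto (fun j => ⟪T j ξ, η⟫_ℂ) l (𝓝 0) :=
    tendsto_of_single (fun j => (innerSL ℂ (T j ξ) : L2 G →+ ℂ)) (C * ‖ξ‖₊)
      (fun j => ((innerSL ℂ (T j ξ)).lipschitz).weaken (by
        rw [← NNReal.coe_le_coe, coe_nnnorm, innerSL_apply_norm]
        exact (T j).le_of_opNorm_le (hC j) ξ))
      (fun a c => by
        have := ((Complex.continuous_conj.tendsto 0).comp (h1 a)).const_mul c
        rw [map_zero, mul_zero] at this
        refine this.congr fun j => ?_
        change _ = ⟪T j ξ, lp.single 2 a c⟫_ℂ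
        rw [single_eq, inner_smul_right, Function.comp_apply, inner_conj_symm]) η
  have := (Complex.continuous_conj.tendsto 0).comp h2
  rw [map_zero] at this
  exact this.congr fun j => by rw [Function.comp_apply, inner_conj_symm]

theorem averages_of_lp (h1 : LP H) (h2 : Escapes H) :
    AveragesToScalars (rightTr G) (basicAlg H) := by
  intro x hx
  choose y hy c hc hyc using fun j : Finset G × ℕ =>
    step_entries h1 h2 hx j.1 (δ := 1 / ((j.2 : ℝ) + 1)) (by positivity)
  let U : Ultrafilter (Finset G × ℕ) := Ultrafilter.of atTop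
  have hU : (U : Filter (Finset G × ℕ)) ≤ atTop := Ultrafilter.of_le _
  obtain ⟨c₀, hc₀, hlim⟩ := (isCompact_closedBall (0 : ℂ) ‖x‖).ultrafilter_le_nhds (U.map c)
    (by
      rw [Ultrafilter.coe_map, le_principal_iff, Filter.mem_map]
      exact univ_mem' fun j => by simpa using hc j)
  have hlim' : Tendsto c U (𝓝 c₀) := hlim
  have hn : ∀ j, ‖y j‖ ≤ ‖x‖ := fun j => by
    have := convexHull_min (t := Metric.closedBall (0 : L2 G →L[ℂ] L2 G) ‖x‖) ?_
      (convex_closedBall _ _) (hy j)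
    · simpa using this
    · rintro _ ⟨u, hu, rfl⟩
      obtain ⟨g, rfl⟩ := mem_rightTr.1 hu
      rw [mem_closedBall_zero_iff, CStarRing.norm_mul_mem_unitary _ (Unitary.star_mem (rt_unitary g)),
        CStarRing.norm_mem_unitary_mul _ (rt_unitary g)]
  have hT := tendsto_of_entries (l := U) (fun j => y j - c₀ • (1 : L2 G →L[ℂ] L2 G))
    (‖x‖₊ + ‖c₀‖₊) (fun j => by
      refine (norm_sub_le _ _).trans (add_le_add (hn j) ?_)
      rw [norm_smul]
      exact mul_le_of_le_one_right (norm_nonneg _) ContinuousLinearMap.norm_id_le)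
    (fun a b => by
      have e1 : Tendsto (fun j => y j (delta b) a - c j * delta b a) U (𝓝 0) := by
        refine squeeze_zero_norm' ?_
          ((tendsto_one_div_add_atTop_nhds_zero_nat.comp
            (tendsto_atTop.2 fun n : ℕ => (eventually_ge_atTop ((∅ : Finset G), n)).mono
              fun j hj => hj.2)).mono_left hU)
        filter_upwards [hU (eventually_ge_atTop ({a, b}, 0))] with j hj
        exact hyc j a (hj.1 (by simp)) b (hj.1 (by simp))
      have e2 := e1.add ((hlim'.sub_const c₀).mul_const (delta b a))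
      rw [sub_self, zero_mul, add_zero] at e2
      refine e2.congr fun j => ?_
      change _ = y j (delta b) a - c₀ * delta b a
      ring)
  refine ⟨c₀, fun n ξ η ε hε => ?_⟩
  obtain ⟨j, hj⟩ := (eventually_all.2 fun i : Fin n =>
    (hT (ξ i) (η i)).norm.eventually (eventually_lt_nhds (by simpa using hε))).exists
  exact ⟨y j, hy j, hj⟩

omit [DecidableEq G] in
theorem wd_of_averages (h : AveragesToScalars (rightTr G) (basicAlg H)) :
    WeakDixmier (groupAlg G) (basicAlg H) := by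
  intro x hx
  obtain ⟨c, hc⟩ := h x hx
  refine ⟨c, fun n ξ η ε hε => ?_⟩
  obtain ⟨y, hy, hy'⟩ := hc n ξ η ε hε
  refine ⟨y, convexHull_mono ?_ hy, hy'⟩
  rintro _ ⟨u, hu, rfl⟩
  obtain ⟨g, rfl⟩ := mem_rightTr.1 hu
  exact ⟨_, ⟨rt_unitary g, rt_mem_groupAlg g⟩, rfl⟩

end Pool.Agent.P.MP_7e3bdd_an.W
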