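import Pool.Agent.P.MP_7e3bdd_an.WSuf

/-! Transfer from the concrete model to an arbitrary orthonormal basis indexed by the group. -/

set_option autoImplicit false

open Set
open scoped InnerProductSpace

noncomputable section

namespace Pool.Agent.P.MP_7e3bdd_an.W

section General

variable {E F : Type} [NormedAddCommGroup E] [InnerProductSpace ℂ E] [CompleteSpace E]
  [NormedAddCommGroup F] [InnerProductSpace ℂ F] [CompleteSpace F] (e : E ≃ₗᵢ[ℂ] F)

theorem centralizer_conj {S : Set (E →L[ℂ] E)} {S' : Set (F →L[ℂ] F)}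
    (h : ∀ x, x ∈ S ↔ e.conjStarAlgEquiv x ∈ S') (x : E →L[ℂ] E) :
    x ∈ S.centralizer ↔ e.conjStarAlgEquiv x ∈ S'.centralizer := by
  constructor
  · intro hx s hs
    obtain ⟨t, rfl⟩ := EquivLike.surjective e.conjStarAlgEquiv s
    rw [← map_mul, ← map_mul, hx t ((h t).2 hs)]
  · intro hx s hs
    apply EquivLike.injective e.conjStarAlgEquiv
    rw [map_mul, map_mul]
    exact hx _ ((h s).1 hs)

theorem unitary_conj (x : E →L[ℂ] E) :
    x ∈ unitary (E →L[ℂ] E) ↔ e.conjStarAlgEquiv x ∈ unitary (F →L[ℂ] F) := by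
  rw [Unitary.mem_iff, Unitary.mem_iff, ← map_star, ← map_mul, ← map_mul,
    ← map_one e.conjStarAlgEquiv, EmbeddingLike.apply_eq_iff_eq,
    EmbeddingLike.apply_eq_iff_eq]

theorem averages_conj_of {U M : Set (E →L[ℂ] E)} {U' M' : Set (F →L[ℂ] F)}
    (hU : ∀ x, x ∈ U → e.conjStarAlgEquiv x ∈ U') (hM : ∀ x, e.conjStarAlgEquiv x ∈ M' → x ∈ M)
    (h : AveragesToScalars U M) : AveragesToScalars U' M' := by
  intro x' hx'
  obtain ⟨x, rfl⟩ := EquivLike.surjective e.conjStarAlgEquiv x'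
  obtain ⟨c, hc⟩ := h x (hM x hx')
  refine ⟨c, fun n ξ η ε hε => ?_⟩
  obtain ⟨y, hy, hy'⟩ := hc n (fun i => e.symm (ξ i)) (fun i => e.symm (η i)) ε hε
  refine ⟨e.conjStarAlgEquiv y, ?_, fun i => ?_⟩
  · refine convexHull_min (t := {T | e.conjStarAlgEquiv T ∈ convexHull ℝ
      {T : F →L[ℂ] F | ∃ u ∈ U', T = u * e.conjStarAlgEquiv x * star u}}) ?_ ?_ hy
    · rintro _ ⟨u, hu, rfl⟩
      exact subset_convexHull ℝ _ ⟨_, hU u hu, by rw [map_mul, map_mul, map_star]⟩
    · intro S hS T hT s t hs ht hst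
      have := convex_convexHull ℝ _ hS hT hs ht hst
      rw [mem_ofPred_eq]
      convert this using 1
      ext z
      simp [← Complex.coe_smul]
  · have : ⟪η i, (e.conjStarAlgEquiv y - c • (1 : F →L[ℂ] F)) (ξ i)⟫_ℂ =
        ⟪e.symm (η i), (y - c • (1 : E →L[ℂ] E)) (e.symm (ξ i))⟫_ℂ := by
      rw [← e.inner_map_map (e.symm (η i))]
      simp [inner_sub_right, inner_smul_right]
    rw [this]
    exact hy' i

theorem averages_conj {U M : Set (E →L[ℂ] E)} {U' M' : Set (F →L[ℂ] F)}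
    (hU : ∀ x, x ∈ U ↔ e.conjStarAlgEquiv x ∈ U') (hM : ∀ x, x ∈ M ↔ e.conjStarAlgEquiv x ∈ M') :
    AveragesToScalars U M ↔ AveragesToScalars U' M' := by
  refine ⟨averages_conj_of e (fun x => (hU x).1) fun x => (hM x).2,
    averages_conj_of e.symm (fun x hx => (hU _).2 ?_) fun x hx => ?_⟩
  · rwa [← LinearIsometryEquiv.symm_conjStarAlgEquiv, StarAlgEquiv.apply_symm_apply]
  · have := (hM _).1 hx
    rwa [← LinearIsometryEquiv.symm_conjStarAlgEquiv, StarAlgEquiv.apply_symm_apply] at this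

end General

variable {G : Type} [Group G] [DecidableEq G] {H : Subgroup G}

omit [Group G] in
theorem ext_delta {S T : L2 G →L[ℂ] L2 G} (h : ∀ g, S (delta g) = T (delta g)) : S = T := by
  ext1 ξ
  refine ((lp.hasSum_single (by norm_num) ξ).mapL S).unique ?_
  convert (lp.hasSum_single (by norm_num) ξ).mapL T using 2 with g
  rw [single_eq, map_smul, map_smul, h]

variable {E : Type} [NormedAddCommGroup E] [InnerProductSpace ℂ E] [CompleteSpace E]
  (b : HilbertBasis G ℂ E)

omit [Group G] in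
theorem conj_delta_iff (x : E →L[ℂ] E) (g g' : G) :
    x (b g) = b g' ↔ b.repr.conjStarAlgEquiv x (delta g) = delta g' := by
  rw [LinearIsometryEquiv.conjStarAlgEquiv_apply_apply, delta, delta, b.repr_symm_single,
    ← b.repr_self, b.repr.injective.eq_iff]

theorem rightTr_conj (x : E →L[ℂ] E) :
    x ∈ B.rightTr b ↔ b.repr.conjStarAlgEquiv x ∈ rightTr G := by
  have e : ∀ y g : G, rt y⁻¹ (delta g) = delta (g * y) := fun y g => by
    ext z
    simp [delta_apply, mul_inv_eq_iff_eq_mul]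
  rw [mem_rightTr]
  constructor
  · rintro ⟨y, hy⟩
    exact ⟨y⁻¹, ext_delta fun g => by rw [e, ← conj_delta_iff, hy]⟩
  · rintro ⟨y, hy⟩
    exact ⟨y⁻¹, fun g => by rw [conj_delta_iff, hy, ← e, inv_inv]⟩

theorem leftTr_conj (x : E →L[ℂ] E) :
    x ∈ B.leftTr b H ↔ b.repr.conjStarAlgEquiv x ∈ leftTr H := by
  have e : ∀ y g : G, lt y⁻¹ (delta g) = delta (y * g) := fun y g => by
    ext z
    simp [delta_apply, inv_mul_eq_iff_eq_mul]
  constructor
  · rintro ⟨y, hyH, hy⟩
    have : b.repr.conjStarAlgEquiv x = lt y⁻¹ := ext_delta fun g => by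
      rw [e, ← conj_delta_iff, hy]
    exact ⟨y⁻¹, inv_mem hyH, fun ξ g => by rw [this]; rfl⟩
  · rintro ⟨y, hyH, hy⟩
    have : b.repr.conjStarAlgEquiv x = lt y := by ext ξ g; exact hy ξ g
    exact ⟨y⁻¹, inv_mem hyH, fun g => by rw [conj_delta_iff, this, ← e, inv_inv]⟩

theorem averages_iff : AveragesToScalars (B.rightTr b) (B.basicAlg b H) ↔
    AveragesToScalars (rightTr G) (basicAlg H) :=
  averages_conj b.repr (rightTr_conj b) (centralizer_conj b.repr (leftTr_conj b))

theorem wd_iff : WeakDixmier (B.groupAlg b) (B.basicAlg b H) ↔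
    WeakDixmier (groupAlg G) (basicAlg H) :=
  averages_conj b.repr (fun x => and_congr (unitary_conj b.repr x)
    (centralizer_conj b.repr (centralizer_conj b.repr (rightTr_conj b)) x))
    (centralizer_conj b.repr (leftTr_conj b))

end Pool.Agent.P.MP_7e3bdd_an.W
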